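import Mathlib

/-!
# [DLR] definitions

Powers, abelian sections of bounded exponent, iterated commutators.
-/

set_option autoImplicit false

namespace Pool.Agent.DLR

open scoped commutatorElement

/-- The subgroup generated by the `n`-th powers of the elements of `M`. -/
def pw {G : Type*} [Group G] (M : Subgroup G) (n : ℕ) : Subgroup G :=
  Subgroup.closure {z | ∃ m ∈ M, z = m ^ n}

/-- `X / Y` is an abelian section of `G`, of exponent dividing `n`, with `X` and `Y` normal in `G`. -/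
structure IsSec {G : Type*} [Group G] (X Y : Subgroup G) (n : ℕ) : Prop where
  normal_left : X.Normal
  normal_right : Y.Normal
  le : Y ≤ X
  comm : ⁅X, X⁆ ≤ Y
  pow : ∀ x ∈ X, x ^ n ∈ Y

/-- `M` is powerfully embedded in `V` modulo `S`, in a weak sense: `[M, V] ≤ M^p S` if `p` is odd,
`[M, V] ≤ (M^p)^p S` in general. -/
def PES {G : Type*} [Group G] (p : ℕ) (M V S : Subgroup G) : Prop :=
  (p ≠ 2 ∧ ⁅M, V⁆ ≤ pw M p ⊔ S) ∨ ⁅M, V⁆ ≤ pw (pw M p) p ⊔ S

/-- `M` is powerfully embedded in `V`, in a weak sense: `[M, V] ≤ M^p` if `p` is odd, `[M, V] ≤ (M^p)^p`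
in general. -/
def PE {G : Type*} [Group G] (p : ℕ) (M V : Subgroup G) : Prop :=
  (p ≠ 2 ∧ ⁅M, V⁆ ≤ pw M p) ∨ ⁅M, V⁆ ≤ pw (pw M p) p

/-- The iterated commutator `[X, N, …, N]` with `k` factors `N`. -/
def iterComm {G : Type*} [Group G] (X N : Subgroup G) : ℕ → Subgroup G
  | 0 => X
  | k + 1 => ⁅iterComm X N k, N⁆

theorem pow_mem_pw {G : Type*} [Group G] {M : Subgroup G} {m : G} (h : m ∈ M) (n : ℕ) :
    m ^ n ∈ pw M n := Subgroup.subset_closure ⟨m, h, rfl⟩

theorem pw_le {G : Type*} [Group G] (M : Subgroup G) (n : ℕ) : pw M n ≤ M := by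
  unfold pw
  rw [Subgroup.closure_le]
  rintro _ ⟨m, hm, rfl⟩
  exact M.pow_mem hm n

theorem pw_le_iff {G : Type*} [Group G] {M K : Subgroup G} {n : ℕ} :
    pw M n ≤ K ↔ ∀ m ∈ M, m ^ n ∈ K := by
  unfold pw
  rw [Subgroup.closure_le]
  constructor
  · intro h m hm
    exact h ⟨m, hm, rfl⟩
  · rintro h _ ⟨m, hm, rfl⟩
    exact h m hm

theorem pw_mul_le {G : Type*} [Group G] (M : Subgroup G) (a b : ℕ) : pw M (a * b) ≤ pw M a := by
  rw [pw_le_iff]
  intro m hm
  rw [pow_mul]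
  exact Subgroup.pow_mem _ (pow_mem_pw hm a) b

theorem pw_mono {G : Type*} [Group G] {M K : Subgroup G} (h : M ≤ K) (n : ℕ) : pw M n ≤ pw K n := by
  rw [pw_le_iff]
  intro m hm
  exact pow_mem_pw (h hm) n

theorem pw_sq_le {G : Type*} [Group G] (M : Subgroup G) (p : ℕ) : pw M (p ^ 2) ≤ pw (pw M p) p := by
  rw [pw_le_iff]
  intro m hm
  rw [pow_two, pow_mul]
  exact pow_mem_pw (pow_mem_pw hm p) p

theorem PE.le {G : Type*} [Group G] {p : ℕ} {M V : Subgroup G} (h : PE p M V) : ⁅M, V⁆ ≤ pw M p := by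
  rcases h with h | h
  · exact h.2
  · exact h.trans (pw_le _ _)

theorem PE.of_sq {G : Type*} [Group G] {p : ℕ} {M V : Subgroup G} (h : ⁅M, V⁆ ≤ pw M (p ^ 2)) :
    PE p M V := Or.inr (h.trans (pw_sq_le M p))

theorem PE.toPES {G : Type*} [Group G] {p : ℕ} {M V : Subgroup G} (h : PE p M V) :
    PES p M V ⊥ := by
  rcases h with h | h
  · exact Or.inl ⟨h.1, by rw [sup_bot_eq]; exact h.2⟩
  · exact Or.inr (by rw [sup_bot_eq]; exact h)

theorem PES.of_sq {G : Type*} [Group G] {p : ℕ} {M V S : Subgroup G}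
    (h : ⁅M, V⁆ ≤ pw M (p ^ 2) ⊔ S) : PES p M V S :=
  Or.inr (h.trans (sup_le_sup_right (pw_sq_le M p) _))

theorem map_pw {G H : Type*} [Group G] [Group H] (f : G →* H) (M : Subgroup G) (n : ℕ) :
    (pw M n).map f = pw (M.map f) n := by
  unfold pw
  rw [MonoidHom.map_closure]
  congr 1
  ext z
  constructor
  · rintro ⟨_, ⟨m, hm, rfl⟩, rfl⟩
    exact ⟨f m, ⟨m, hm, rfl⟩, map_pow f m n⟩
  · rintro ⟨_, ⟨m, hm, rfl⟩, rfl⟩
    exact ⟨m ^ n, ⟨m, hm, rfl⟩, map_pow f m n⟩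

instance pw_normal {G : Type*} [Group G] (M : Subgroup G) [hM : M.Normal] (n : ℕ) :
    (pw M n).Normal := by
  constructor
  intro z hz g
  have h : pw M n ≤ (pw M n).comap (MulAut.conj g).toMonoidHom := by
    rw [pw_le_iff]
    intro m hm
    rw [Subgroup.mem_comap]
    have : (MulAut.conj g).toMonoidHom (m ^ n) = (g * m * g⁻¹) ^ n := by
      simp [conj_pow]
    rw [this]
    exact pow_mem_pw (hM.conj_mem m hm g) n
  have h2 := h hz
  rw [Subgroup.mem_comap] at h2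
  simpa using h2

theorem three {Q : Type*} [Group Q] (N H₁ H₂ H₃ : Subgroup Q) [N.Normal]
    (h1 : ⁅⁅H₂, H₃⁆, H₁⁆ ≤ N) (h2 : ⁅⁅H₃, H₁⁆, H₂⁆ ≤ N) : ⁅⁅H₁, H₂⁆, H₃⁆ ≤ N := by
  have key : ∀ K : Subgroup Q, K ≤ N ↔ K.map (QuotientGroup.mk' N) = ⊥ := by
    intro K
    rw [Subgroup.map_eq_bot_iff, QuotientGroup.ker_mk']
  rw [key, Subgroup.map_commutator, Subgroup.map_commutator] at h1 h2 ⊢
  exact Subgroup.commutator_commutator_eq_bot_of_rotate h1 h2

/-- commutators modulo a normal subgroup -/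
theorem comm_sup_le {G : Type*} [Group G] (A B V R : Subgroup G) [R.Normal]
    (hA : ⁅A, V⁆ ≤ R) (hB : ⁅B, V⁆ ≤ R) : ⁅A ⊔ B, V⁆ ≤ R := by
  have key : ∀ K L : Subgroup G, ⁅K, L⁆ ≤ R ↔
      K.map (QuotientGroup.mk' R) ≤ Subgroup.centralizer (L.map (QuotientGroup.mk' R)) := by
    intro K L
    rw [← Subgroup.commutator_eq_bot_iff_le_centralizer, ← Subgroup.map_commutator,
      Subgroup.map_eq_bot_iff, QuotientGroup.ker_mk']
  rw [key] at hA hB ⊢
  rw [Subgroup.map_sup]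
  exact sup_le hA hB

/-- `[X, γ_{k+1}(N)] ≤ [X, N, …, N]` (`k + 1` factors). -/
theorem comm_lcs_le {G : Type*} [Group G] (N : Subgroup G) [hN : N.Normal] (k : ℕ) :
    ∀ (X : Subgroup G), X.Normal → ⁅X, N.lowerCentralSeries k⁆ ≤ iterComm X N (k + 1) := by
  have hnorm : ∀ (X : Subgroup G), X.Normal → ∀ j, (iterComm X N j).Normal := by
    intro X hX j
    induction j with
    | zero => exact hX
    | succ j ih =>
      have := ih
      exact Subgroup.commutator_normal _ _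
  have hshift : ∀ (X : Subgroup G) (j : ℕ), iterComm ⁅X, N⁆ N j = iterComm X N (j + 1) := by
    intro X j
    induction j with
    | zero => rfl
    | succ j ih =>
      show ⁅iterComm ⁅X, N⁆ N j, N⁆ = ⁅iterComm X N (j + 1), N⁆
      rw [ih]
  induction k with
  | zero =>
    intro X hX
    exact le_rfl
  | succ k ih =>
    intro X hX
    have hn := hnorm X hX (k + 1 + 1)
    rw [Subgroup.lowerCentralSeries_succ, Subgroup.commutator_comm]
    apply three
    · -- ⁅⁅N, X⁆, γ_k⁆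
      rw [Subgroup.commutator_comm N X]
      have : (⁅X, N⁆ : Subgroup G).Normal := Subgroup.commutator_normal _ _
      have h := ih ⁅X, N⁆ this
      rw [hshift] at h
      exact h
    · exact Subgroup.commutator_mono (ih X hX) le_rfl

end Pool.Agent.DLR
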