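import Pool.Agent.DLR.G1

/-!
# [DLR-G3] powerful embedding is inherited by the powers
-/

set_option autoImplicit false

namespace Pool.Agent.DLR

open scoped commutatorElement

theorem mul_pow_class2 {H : Type*} [Group H] (c m z : H) (h : c * m = z * (m * c))
    (hzc : Commute z c) (hzm : Commute z m) (n : ℕ) :
    (c * m) ^ n * z ^ (∑ j ∈ Finset.range n, j) = c ^ n * m ^ n := by
  have hmc : ∀ k : ℕ, z ^ k * (m ^ k * c) = c * m ^ k := by
    intro k
    induction k with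
    | zero => simp
    | succ k ih =>
      calc z ^ (k + 1) * (m ^ (k + 1) * c) = z ^ k * (z * m ^ k) * (m * c) := by
            rw [pow_succ, pow_succ]; group
        _ = z ^ k * m ^ k * (z * (m * c)) := by
            rw [(hzm.pow_right k).eq]; group
        _ = z ^ k * (m ^ k * c) * m := by rw [← h]; group
        _ = c * m ^ (k + 1) := by rw [ih, pow_succ]; group
  induction n with
  | zero => simp
  | succ n ih =>
    rw [Finset.sum_range_succ, pow_add z, pow_succ (c * m) n]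
    have hz : Commute (c * m) (z ^ (∑ j ∈ Finset.range n, j)) :=
      (Commute.mul_right (hzc.pow_left _) (hzm.pow_left _)).symm
    calc (c * m) ^ n * (c * m) * (z ^ (∑ j ∈ Finset.range n, j) * z ^ n)
        = (c * m) ^ n * ((c * m) * z ^ (∑ j ∈ Finset.range n, j)) * z ^ n := by group
      _ = (c * m) ^ n * z ^ (∑ j ∈ Finset.range n, j) * (c * m) * z ^ n := by
          rw [hz.eq]; group
      _ = c ^ n * m ^ n * (c * m * z ^ n) := by rw [ih]; group
      _ = c ^ n * m ^ n * (z ^ n * (c * m)) := by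
          rw [((hzc.pow_left n).mul_right (hzm.pow_left n)).eq]
      _ = c ^ n * (z ^ n * (m ^ n * c)) * m := by
          have : m ^ n * z ^ n = z ^ n * m ^ n := (hzm.pow_pow n n).symm.eq
          calc c ^ n * m ^ n * (z ^ n * (c * m)) = c ^ n * (m ^ n * z ^ n) * (c * m) := by group
            _ = _ := by rw [this]; group
      _ = c ^ (n + 1) * m ^ (n + 1) := by rw [hmc, pow_succ, pow_succ]; group

/-- It suffices to look at the generators `m ^ n`. -/
theorem comm_pw_le {G : Type*} [Group G] (M V R : Subgroup G) [R.Normal] (n : ℕ)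
    (h : ∀ m ∈ M, ∀ v ∈ V, (QuotientGroup.mk' R) (v * m * v⁻¹) ^ n = (QuotientGroup.mk' R) m ^ n) :
    ⁅pw M n, V⁆ ≤ R := by
  have key : ∀ K L : Subgroup G, ⁅K, L⁆ ≤ R ↔
      K.map (QuotientGroup.mk' R) ≤ Subgroup.centralizer (L.map (QuotientGroup.mk' R)) := by
    intro K L
    rw [← Subgroup.commutator_eq_bot_iff_le_centralizer, ← Subgroup.map_commutator,
      Subgroup.map_eq_bot_iff, QuotientGroup.ker_mk']
  rw [key, Subgroup.map_le_iff_le_comap, pw_le_iff]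
  intro m hm
  rw [Subgroup.mem_comap, Subgroup.mem_centralizer_iff]
  rintro _ ⟨v, hv, rfl⟩
  have h1 := h m hm v hv
  rw [map_mul, map_mul, map_inv, conj_pow] at h1
  rw [map_pow]
  calc (QuotientGroup.mk' R) v * (QuotientGroup.mk' R) m ^ n
      = ((QuotientGroup.mk' R) v * (QuotientGroup.mk' R) m ^ n * ((QuotientGroup.mk' R) v)⁻¹)
        * (QuotientGroup.mk' R) v := by group
    _ = _ := by rw [h1]

theorem mk_eq_one_of_mem {G : Type*} [Group G] {R : Subgroup G} [R.Normal] {x : G} (h : x ∈ R) :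
    (QuotientGroup.mk' R) x = 1 := by
  rw [QuotientGroup.mk'_apply, QuotientGroup.eq_one_iff]
  exact h

theorem commute_mk {G : Type*} [Group G] {R A B : Subgroup G} [R.Normal] (hR : ⁅A, B⁆ ≤ R)
    {a b : G} (ha : a ∈ A) (hb : b ∈ B) :
    Commute ((QuotientGroup.mk' R) a) ((QuotientGroup.mk' R) b) := by
  have h := mk_eq_one_of_mem (hR (Subgroup.commutator_mem_commutator ha hb))
  rw [map_commutatorElement, commutatorElement_eq_one_iff_mul_comm] at h
  exact h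

/-- The commutator calculus for odd `p`. -/
theorem comm_pw_odd {G : Type*} [Group G] (V M B : Subgroup G) [V.Normal] [M.Normal] [B.Normal]
    {p : ℕ} (hp : p.Prime) (hp2 : p ≠ 2) (hMV : M ≤ V) (hB : ⁅M, V⁆ ≤ B) :
    ⁅pw M p, V⁆ ≤ pw B p ⊔ ⁅⁅B, V⁆, V⁆ := by
  have n1 : (⁅B, V⁆ : Subgroup G).Normal := Subgroup.commutator_normal _ _
  have n2 : (⁅⁅B, V⁆, V⁆ : Subgroup G).Normal := Subgroup.commutator_normal _ _
  have n3 : (pw B p ⊔ ⁅⁅B, V⁆, V⁆ : Subgroup G).Normal := Subgroup.sup_normal _ _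
  set R := pw B p ⊔ ⁅⁅B, V⁆, V⁆ with hR
  have hR1 : ⁅⁅B, V⁆, V⁆ ≤ R := le_sup_right
  have hR2 : pw B p ≤ R := le_sup_left
  apply comm_pw_le
  intro m hm v hv
  have hc : ⁅v, m⁆ ∈ B := by
    apply hB
    rw [Subgroup.commutator_comm]
    exact Subgroup.commutator_mem_commutator hv hm
  have hz : ⁅⁅v, m⁆, m⁆ ∈ ⁅B, V⁆ := Subgroup.commutator_mem_commutator hc (hMV hm)
  have hzB : ⁅⁅v, m⁆, m⁆ ∈ B := (Subgroup.commutator_le_left B V) hz
  have hcV : ⁅v, m⁆ ∈ V :=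
    (Subgroup.commutator_le_left V M) (Subgroup.commutator_mem_commutator hv hm)
  have e1 : v * m * v⁻¹ = ⁅v, m⁆ * m := by rw [commutatorElement_def]; group
  have e2 : ⁅v, m⁆ * m = ⁅⁅v, m⁆, m⁆ * (m * ⁅v, m⁆) := by
    rw [commutatorElement_def ⁅v, m⁆ m]; group
  have h1 := mul_pow_class2 ((QuotientGroup.mk' R) ⁅v, m⁆) ((QuotientGroup.mk' R) m)
    ((QuotientGroup.mk' R) ⁅⁅v, m⁆, m⁆) (by rw [← map_mul, ← map_mul, ← map_mul, ← e2])
    (commute_mk hR1 hz hcV) (commute_mk hR1 hz (hMV hm)) p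
  have h2 : (QuotientGroup.mk' R) ⁅v, m⁆ ^ p = 1 := by
    rw [← map_pow]; exact mk_eq_one_of_mem (hR2 (pow_mem_pw hc p))
  have h3 : (QuotientGroup.mk' R) ⁅⁅v, m⁆, m⁆ ^ p = 1 := by
    rw [← map_pow]; exact mk_eq_one_of_mem (hR2 (pow_mem_pw hzB p))
  obtain ⟨k, hk⟩ : p ∣ ∑ j ∈ Finset.range p, j := by
    rw [Finset.sum_range_id]
    have hodd : ¬ 2 ∣ p := by
      intro h2
      exact hp2 ((Nat.prime_dvd_prime_iff_eq Nat.prime_two hp).1 h2).symm
    obtain ⟨c, hc⟩ : 2 ∣ p - 1 := by omega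
    rw [hc, mul_left_comm, Nat.mul_div_cancel_left _ (by norm_num)]
    exact dvd_mul_right _ _
  rw [hk, pow_mul, h3, one_pow, mul_one, h2, one_mul] at h1
  rw [e1, map_mul]
  exact h1

/-- The commutator calculus for `p = 2`. -/
theorem comm_pw_two {G : Type*} [Group G] (V M : Subgroup G) [V.Normal] [M.Normal]
    (hMV : M ≤ V) (hB : ⁅M, V⁆ ≤ pw (pw M 2) 2) :
    ⁅pw M 2, V⁆ ≤ pw (pw (pw M 2) 2) 2 ⊔ ⁅⁅pw M 2, V⁆, V⁆ := by
  have n1 : (⁅pw M 2, V⁆ : Subgroup G).Normal := Subgroup.commutator_normal _ _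
  have n2 : (⁅⁅pw M 2, V⁆, V⁆ : Subgroup G).Normal := Subgroup.commutator_normal _ _
  have n3 : (pw (pw (pw M 2) 2) 2 ⊔ ⁅⁅pw M 2, V⁆, V⁆ : Subgroup G).Normal :=
    Subgroup.sup_normal _ _
  set R := pw (pw (pw M 2) 2) 2 ⊔ ⁅⁅pw M 2, V⁆, V⁆ with hR
  have hR1 : ⁅⁅pw M 2, V⁆, V⁆ ≤ R := le_sup_right
  have hR2 : pw (pw (pw M 2) 2) 2 ≤ R := le_sup_left
  have hYV : ⁅pw (pw M 2) 2, V⁆ ≤ R := by
    apply comm_pw_le
    intro y hy v hv
    have hyV : y ∈ V := hMV (pw_le M 2 hy)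
    have hc : ⁅v, y⁆ ∈ ⁅pw M 2, V⁆ := by
      rw [Subgroup.commutator_comm]
      exact Subgroup.commutator_mem_commutator hv hy
    have hcY : ⁅v, y⁆ ∈ pw (pw M 2) 2 :=
      hB ((Subgroup.commutator_mono (pw_le M 2) le_rfl) hc)
    have e1 : v * y * v⁻¹ = ⁅v, y⁆ * y := by rw [commutatorElement_def]; group
    rw [e1, map_mul, (commute_mk hR1 hc hyV).mul_pow, ← map_pow,
      mk_eq_one_of_mem (hR2 (pow_mem_pw hcY 2)), one_mul]
  apply comm_pw_le
  intro m hm v hv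
  have hc : ⁅v, m⁆ ∈ pw (pw M 2) 2 := by
    apply hB
    rw [Subgroup.commutator_comm]
    exact Subgroup.commutator_mem_commutator hv hm
  have e1 : v * m * v⁻¹ = ⁅v, m⁆ * m := by rw [commutatorElement_def]; group
  rw [e1, map_mul, (commute_mk hYV hc (hMV hm)).mul_pow, ← map_pow,
    mk_eq_one_of_mem (hR2 (pow_mem_pw hc 2)), one_mul]

/-- Powerful embedding is inherited by `M^p`. -/
theorem PE.pw_of {G : Type*} [Group G] (V M : Subgroup G) [V.Normal] [M.Normal]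
    (hV : Group.IsNilpotent ↥V) {p : ℕ} (hp : p.Prime) (hMV : M ≤ V) (h : PE p M V) :
    PE p (pw M p) V := by
  by_cases hp2 : p = 2
  · subst hp2
    have h2 : ⁅M, V⁆ ≤ pw (pw M 2) 2 := by
      rcases h with h | h
      · exact absurd rfl h.1
      · exact h
    right
    have n1 : (⁅pw M 2, V⁆ : Subgroup G).Normal := Subgroup.commutator_normal _ _
    exact le_of_le_sup_comm V ⁅pw M 2, V⁆ _ hV
      ((Subgroup.commutator_le_left _ _).trans ((pw_le M 2).trans hMV)) (comm_pw_two V M hMV h2)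
  · left
    refine ⟨hp2, ?_⟩
    have n1 : (⁅pw M p, V⁆ : Subgroup G).Normal := Subgroup.commutator_normal _ _
    exact le_of_le_sup_comm V ⁅pw M p, V⁆ _ hV
      ((Subgroup.commutator_le_left _ _).trans ((pw_le M p).trans hMV))
      (comm_pw_odd V M (pw M p) hp hp2 hMV h.le)

/-- In a powerful normal subgroup (`p` odd) the derived subgroup is powerfully embedded. -/
theorem PE.of_powerful {G : Type*} [Group G] (N : Subgroup G) [N.Normal]
    (hN : Group.IsNilpotent ↥N) {p : ℕ} (hp : p.Prime) (hp2 : p ≠ 2) (h : ⁅N, N⁆ ≤ pw N p) :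
    ⁅⁅N, N⁆, N⁆ ≤ pw ⁅N, N⁆ p := by
  have n0 : (⁅N, N⁆ : Subgroup G).Normal := Subgroup.commutator_normal _ _
  have n1 : (⁅⁅N, N⁆, N⁆ : Subgroup G).Normal := Subgroup.commutator_normal _ _
  apply le_of_le_sup_comm N ⁅⁅N, N⁆, N⁆ _ hN
    ((Subgroup.commutator_le_left _ _).trans (Subgroup.commutator_le_left _ _))
  exact (Subgroup.commutator_mono h le_rfl).trans (comm_pw_odd N N ⁅N, N⁆ hp hp2 le_rfl le_rfl)

end Pool.Agent.DLR
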