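import Pool.Agent.DLR.R2
import Pool.Agent.DLR.G3
import Pool.Agent.DLF.D1

/-!
# [DLR-F1] the bounds
-/

set_option autoImplicit false

namespace Pool.Agent.DLR

open Pool.Agent.DLF
open scoped commutatorElement

theorem lcs_le_chain {G : Type*} [Group G] (V : Subgroup G) (p : ℕ)
    (hPE : ∀ k, PE p (chain V p k) V) (k : ℕ) : V.lowerCentralSeries (k + 1) ≤ chain V p k := by
  induction k with
  | zero => exact le_rfl
  | succ k ih =>
    rw [Subgroup.lowerCentralSeries_succ]
    exact (Subgroup.commutator_mono ih le_rfl).trans (hPE k).le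

/-- The class bound for a normal `p`-subgroup. -/
theorem lcs_eq_bot_of_chain {G : Type*} [Group G] [Finite G] {p : ℕ} [hp : Fact p.Prime]
    (V : Subgroup G) [hVn : V.Normal] (hV : IsPGroup p ↥V)
    (hPE : ∀ k, PE p (chain V p k) V) :
    V.lowerCentralSeries ((cdOver G ⁅V, V⁆).ncard + 1) = ⊥ := by
  rw [eq_bot_iff, ← chain_eq_bot V hV hPE]
  exact lcs_le_chain V p hPE _

theorem chain_le {G : Type*} [Group G] (V : Subgroup G) [V.Normal] (p k : ℕ) : chain V p k ≤ V :=
  (chain_antitone V p (Nat.zero_le k)).trans (Subgroup.commutator_le_left V V)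

/-- The class bound when the derived subgroup is powerfully embedded. -/
theorem lcs_eq_bot_of_PE {G : Type*} [Group G] [Finite G] {p : ℕ} [hp : Fact p.Prime]
    (V : Subgroup G) [hVn : V.Normal] (hV : IsPGroup p ↥V) (h : PE p ⁅V, V⁆ V) :
    V.lowerCentralSeries ((cdOver G ⁅V, V⁆).ncard + 1) = ⊥ := by
  have hnil : Group.IsNilpotent ↥V := hV.isNilpotent
  apply lcs_eq_bot_of_chain V hV
  intro k
  induction k with
  | zero => exact h
  | succ k ih =>
    have := chain_normal V p k
    exact PE.pw_of V _ hnil hp.out (chain_le V p k) ih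

/-- The class bound when `V` centralises the abelian sections of exponent dividing `p ^ 2` that are cut
out by one irreducible representation inside the levels. -/
theorem lcs_eq_bot_of_sec {G : Type*} [Group G] [Finite G] {p : ℕ} [hp : Fact p.Prime]
    (V : Subgroup G) [hVn : V.Normal] (hV : IsPGroup p ↥V)
    (hC : ∀ (a : ℕ) (d : ℕ) (ρ : G →* Matrix (Fin d) (Fin d) ℂ), Irr ρ → ¬ p ^ (a + 1) ∣ d →
      ∀ X Y : Subgroup G, IsSec X Y (p ^ 2) → X ≤ ⁅V, V⁆ → X ≤ lowK G p a → X ⊓ kerM ρ ≤ Y →
      ⁅X, V⁆ ≤ Y) :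
    V.lowerCentralSeries ((cdOver G ⁅V, V⁆).ncard + 1) = ⊥ := by
  classical
  have hnil : Group.IsNilpotent ↥V := hV.isNilpotent
  obtain ⟨P, hVP⟩ := hV.exists_le_sylow
  have n0 : (⁅V, V⁆ : Subgroup G).Normal := Subgroup.commutator_normal _ _
  have hstep : ∀ a, ⁅⁅V, V⁆ ⊓ lowK G p a, V⁆ ≤ lowK G p (a + 1) := by
    intro a x hx d ρ hρ hd
    set M := ⁅V, V⁆ ⊓ lowK G p a with hM
    have hMn : M.Normal := Subgroup.normal_inf_normal _ _
    have hMV : M ≤ ⁅V, V⁆ := inf_le_left
    have hkn := kerM_normal ρ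
    have hSn : (M ⊓ kerM ρ : Subgroup G).Normal := Subgroup.normal_inf_normal _ _
    have h1 : ⁅M, V⁆ ≤ pw M (p ^ 2) ⊔ (M ⊓ kerM ρ) :=
      comm_le_pw V M (kerM ρ) hnil (p ^ 2)
        (fun Y hY hSY => hC a d ρ hρ hd M Y hY hMV inf_le_right hSY) hMV
    have h2 : pw M p ≤ kerM ρ := by
      intro x hx
      exact step_pw P V M (M ⊓ kerM ρ) hVP hMV inf_le_left (PES.of_sq h1) a
        (fun d ρ hρ hd x hx => hx.2 d ρ hρ hd) d ρ hρ hd (fun x hx => hx.2) x hx
    have h3 : ⁅M, V⁆ ≤ kerM ρ := by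
      refine h1.trans (sup_le ?_ inf_le_right)
      rw [pow_two]
      exact (pw_mul_le M p p).trans h2
    exact h3 hx
  have h3 := lcs_le_lowK V p hstep (Nat.card G)
  rw [lowK_card G hp.out] at h3
  rw [eq_bot_iff]
  refine le_trans ?_ h3
  apply V.lowerCentralSeries_antitone
  have := ncard_partExp_le ⁅V, V⁆ (p := p) (Nat.card G) (G := G)
  omega

theorem derivedSeries_of_lcs {G : Type*} [Group G] (V : Subgroup G) {c s : ℕ}
    (h : V.lowerCentralSeries c = ⊥) (hs : c + 1 ≤ 2 ^ s) : derivedSeries ↥V s = ⊥ := by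
  have h1 := derivedSeries_le_lcs (Q := ↥V) s
  have h2 : (⊤ : Subgroup ↥V).lowerCentralSeries (2 ^ s - 1) ≤
      (⊤ : Subgroup ↥V).lowerCentralSeries c :=
    Subgroup.lowerCentralSeries_antitone _ (by omega)
  rw [eq_bot_iff]
  refine (h1.trans h2).trans ?_
  rw [← Subgroup.map_le_map_iff_of_injective V.subtype_injective,
    Subgroup.top_subtype_lowerCentralSeries, h]
  exact bot_le

/-- From the Sylow subgroups to a nilpotent normal subgroup. -/
theorem derivedSeries_of_sylow {G : Type*} [Group G] [Finite G] (N : Subgroup G) [hNn : N.Normal]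
    (hN : Group.IsNilpotent ↥N) (s : ℕ)
    (h : ∀ (p : ℕ) (hp : Fact p.Prime) (Q : Sylow p ↥N),
      ((Q : Subgroup ↥N).map N.subtype).Normal →
      IsPGroup p ↥((Q : Subgroup ↥N).map N.subtype) →
      derivedSeries ↥((Q : Subgroup ↥N).map N.subtype) s = ⊥) :
    derivedSeries ↥N s = ⊥ := by
  classical
  apply derivedSeries_eq_bot_of_sylow
  intro p hp Q
  have hQn : (Q : Subgroup ↥N).Normal := by
    have h := ((Group.isNilpotent_of_finite_tfae (G := ↥N)).out 0 3).1 hN
    exact h p hp Q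
  have hQc : (Q : Subgroup ↥N).Characteristic := Q.characteristic_of_normal hQn
  let Kp : Subgroup G := (Q : Subgroup ↥N).map N.subtype
  have hKpn : Kp.Normal := inferInstance
  let e : ↥(Q : Subgroup ↥N) ≃* ↥Kp :=
    (Q : Subgroup ↥N).equivMapOfInjective N.subtype N.subtype_injective
  have hKpp : IsPGroup p ↥Kp := Q.isPGroup'.of_equiv e
  have h2 : derivedSeries ↥Kp s = ⊥ := h p hp Q hKpn hKpp
  rw [eq_bot_iff]
  intro x hx
  have h3 := map_derivedSeries_le_derivedSeries e.toMonoidHom s
  have h4 : e x ∈ derivedSeries ↥Kp s := h3 ⟨x, hx, rfl⟩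
  rw [h2, Subgroup.mem_bot] at h4
  rw [Subgroup.mem_bot]
  exact e.map_eq_one_iff.1 h4

theorem ncard_mono {G : Type*} [Group G] [Finite G] {K N : Subgroup G} (h : K ≤ N) :
    (cdOver G K).ncard ≤ (cdOver G N).ncard :=
  Set.ncard_le_ncard (cdOver_mono h) (cdOver_finite G N)

/-- `X / Y` is an elementary abelian `p`-section of `G`, with `X` and `Y` normal in `G` and `X` a
`p`-group, in the lowest level of an irreducible representation `ρ` of `G`: `Y` contains the elements of
`X` in the kernel of `ρ`, and for some `a` the degree of `ρ` is not divisible by `p ^ (a + 1)` and all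
irreducible representations of `G` whose degree is not divisible by `p ^ a` are trivial on `X`. -/
structure LevelSec {G : Type*} [Group G] (p : ℕ) (X Y : Subgroup G) : Prop where
  sec : IsSec X Y p
  pgroup : IsPGroup p ↥X
  level : ∃ (a d : ℕ) (ρ : G →* Matrix (Fin d) (Fin d) ℂ), Irr ρ ∧ ¬ p ^ (a + 1) ∣ d ∧
    X ≤ lowK G p a ∧ ∀ x ∈ X, ρ x = 1 → x ∈ Y

/-- The reduction theorem. -/
theorem reduction {G : Type*} [Group G] [Finite G] (N : Subgroup G) [hNn : N.Normal]
    (hN : Group.IsNilpotent ↥N) (n : ℕ)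
    (h : ∀ p : ℕ, p.Prime → ∀ X Y : Subgroup G, LevelSec p X Y →
      X ≤ (derivedSeries ↥N (n + 2)).map N.subtype →
      ⁅X, (derivedSeries ↥N n).map N.subtype⁆ ≤ Y) :
    derivedSeries ↥N (n + 1 + Nat.clog 2 ((cdOver G N).ncard + 2)) = ⊥ := by
  classical
  set s := Nat.clog 2 ((cdOver G N).ncard + 2) with hs
  have hs2 : (cdOver G N).ncard + 2 ≤ 2 ^ s := Nat.le_pow_clog (by norm_num) _
  let W : Subgroup G := (derivedSeries ↥N n).map N.subtype
  have hWn : W.Normal := inferInstance
  let U : Subgroup G := (derivedSeries ↥N (n + 1)).map N.subtype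
  have hUn : U.Normal := inferInstance
  have hUW : U = ⁅W, W⁆ := by
    show (derivedSeries ↥N (n + 1)).map N.subtype = _
    rw [derivedSeries_succ, Subgroup.map_commutator]
  have hUN : U ≤ N := by
    rintro _ ⟨x, _, rfl⟩
    exact x.2
  have hUU : ⁅U, U⁆ = (derivedSeries ↥N (n + 2)).map N.subtype := by
    show _ = (derivedSeries ↥N (n + 1 + 1)).map N.subtype
    rw [derivedSeries_succ _ (n + 1), Subgroup.map_commutator]
  have hUnil : Group.IsNilpotent ↥U := by
    have e := (derivedSeries ↥N (n + 1)).equivMapOfInjective N.subtype N.subtype_injective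
    exact Group.isNilpotent_congr e |>.1 inferInstance
  have h1 : derivedSeries ↥U s = ⊥ := by
    apply derivedSeries_of_sylow U hUnil
    intro p hp Q hQn hQp
    have hQU : (Q : Subgroup ↥U).map U.subtype ≤ U := by
      rintro _ ⟨x, _, rfl⟩
      exact x.2
    have h2 := lcs_eq_bot_of_sec _ hQp (by
      intro a d ρ hρ hd X Y hXY hX hXa hYa
      have h3 := sec_sq W p X Y hXY (by
        intro X' Y' hXY' hX' hY'
        have hX'p : IsPGroup p ↥X' :=
          hQp.to_le (hX'.trans (hX.trans (Subgroup.commutator_le_left _ _)))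
        exact h p hp.out X' Y' ⟨hXY', hX'p, a, d, ρ, hρ, hd, hX'.trans hXa,
          fun x hx hx1 => hY' (hYa ⟨hX' hx, hx1⟩)⟩ (by
            rw [← hUU]
            exact hX'.trans (hX.trans (Subgroup.commutator_mono hQU hQU))))
      rw [← hUW] at h3
      exact (Subgroup.commutator_mono le_rfl hQU).trans h3)
    apply derivedSeries_of_lcs _ h2
    have h4 : (cdOver G ⁅(Q : Subgroup ↥U).map U.subtype, (Q : Subgroup ↥U).map U.subtype⁆).ncard ≤
        (cdOver G N).ncard :=
      ncard_mono (((Subgroup.commutator_le_left _ _).trans hQU).trans hUN)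
    omega
  have h4 := map_derivedSeries_add N (n + 1) s
  rw [show derivedSeries ↥((derivedSeries ↥N (n + 1)).map N.subtype) s = ⊥ from h1,
    Subgroup.map_bot] at h4
  rw [eq_bot_iff]
  intro x hx
  have h5 := h4 ⟨x, hx, rfl⟩
  rw [Subgroup.mem_bot] at h5 ⊢
  exact Subtype.ext h5

theorem iterComm_normal {G : Type*} [Group G] (X N : Subgroup G) [N.Normal] (hX : X.Normal)
    (k : ℕ) : (iterComm X N k).Normal := by
  induction k with
  | zero => exact hX
  | succ k ih =>
    have := ih
    exact Subgroup.commutator_normal _ _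

theorem iterComm_antitone {G : Type*} [Group G] (X N : Subgroup G) [N.Normal] (hX : X.Normal)
    {j k : ℕ} (h : j ≤ k) : iterComm X N k ≤ iterComm X N j := by
  induction h with
  | refl => exact le_rfl
  | @step k _ ih =>
    have := iterComm_normal X N hX k
    exact (Subgroup.commutator_le_left _ _).trans ih

/-- The reduction theorem in terms of the length of the action on the abelian sections. -/
theorem bound_length {G : Type*} [Group G] [Finite G] (N : Subgroup G) [hNn : N.Normal]
    (hN : Group.IsNilpotent ↥N) (l : ℕ)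
    (h : ∀ p : ℕ, p.Prime → ∀ X Y : Subgroup G, LevelSec p X Y →
      X ≤ (derivedSeries ↥N (Nat.clog 2 l + 2)).map N.subtype → iterComm X N l ≤ Y) :
    derivedSeries ↥N (Nat.clog 2 l + 1 + Nat.clog 2 ((cdOver G N).ncard + 2)) = ⊥ := by
  apply reduction N hN
  intro p hp X Y hXY hX
  have h1 : l ≤ 2 ^ Nat.clog 2 l := Nat.le_pow_clog (by norm_num) _
  have h2 : (derivedSeries ↥N (Nat.clog 2 l)).map N.subtype ≤
      N.lowerCentralSeries (2 ^ Nat.clog 2 l - 1) := by
    rw [← Subgroup.top_subtype_lowerCentralSeries]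
    exact Subgroup.map_mono (derivedSeries_le_lcs _)
  have hXn := hXY.sec.normal_left
  have h3 := comm_lcs_le N (2 ^ Nat.clog 2 l - 1) X hXn
  have h4 : 2 ^ Nat.clog 2 l - 1 + 1 = 2 ^ Nat.clog 2 l := by
    have : 1 ≤ 2 ^ Nat.clog 2 l := Nat.one_le_two_pow
    omega
  rw [h4] at h3
  exact (Subgroup.commutator_mono le_rfl h2).trans
    (h3.trans ((iterComm_antitone X N hXn h1).trans (h p hp X Y hXY hX)))

/-- If the iterated commutators do not reach `Y` in `l` steps, then there is a chain of `l + 1` proper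
inclusions between `Y` and `X`. -/
theorem exists_chain {G : Type*} [Group G] (N X Y : Subgroup G) [hNn : N.Normal]
    (hN : Group.IsNilpotent ↥N) (hX : X.Normal) (hY : Y.Normal) (hYX : Y ≤ X) (hXN : X ≤ N) (l : ℕ)
    (h : ¬ iterComm X N l ≤ Y) :
    ∃ c : Fin (l + 2) → Subgroup G, StrictMono c ∧ ∀ i, (c i).Normal ∧ Y ≤ c i ∧ c i ≤ X := by
  classical
  let K : ℕ → Subgroup G := fun i => iterComm X N i ⊔ Y
  have hKn : ∀ i, (K i).Normal := by
    intro i
    have := iterComm_normal X N hX i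
    exact Subgroup.sup_normal _ _
  have hKX : ∀ i, K i ≤ X := fun i => sup_le (iterComm_antitone X N hX (Nat.zero_le i)) hYX
  have hYK : ∀ i, Y ≤ K i := fun i => le_sup_right
  have hKanti : ∀ i, K (i + 1) ≤ K i := fun i =>
    sup_le_sup_right (iterComm_antitone X N hX (Nat.le_succ i)) _
  have hne : ∀ i, i ≤ l → K i ≠ Y := by
    intro i hi hK
    apply h
    refine (iterComm_antitone X N hX hi).trans ?_
    rw [← hK]
    exact le_sup_left
  have hstrict : ∀ i, i < l → K (i + 1) < K i := by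
    intro i hi
    refine lt_of_le_of_ne (hKanti i) ?_
    intro hK
    apply hne i hi.le
    apply le_antisymm _ (hYK i)
    have := hKn i
    apply le_of_le_sup_comm N (K i) Y hN ((hKX i).trans hXN)
    conv_lhs => rw [← hK]
    apply sup_le _ le_sup_left
    exact (Subgroup.commutator_mono le_sup_left le_rfl).trans le_sup_right
  let c' : ℕ → Subgroup G := fun i => if i = 0 then Y else K (l + 1 - i)
  have hc' : ∀ i, i < l + 1 → c' i < c' (i + 1) := by
    intro i hi
    show (if i = 0 then Y else K (l + 1 - i)) < (if i + 1 = 0 then Y else K (l + 1 - (i + 1)))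
    rw [if_neg (Nat.succ_ne_zero i)]
    by_cases h0 : i = 0
    · rw [if_pos h0, h0]
      exact lt_of_le_of_ne (hYK _) (Ne.symm (hne _ (by omega)))
    · rw [if_neg h0]
      have h1 : l + 1 - i = (l + 1 - (i + 1)) + 1 := by omega
      rw [h1]
      exact hstrict _ (by omega)
  refine ⟨fun i => c' i, ?_, ?_⟩
  · rw [Fin.strictMono_iff_lt_succ]
    intro i
    have := hc' i (by omega)
    simpa using this
  · intro i
    show (c' i).Normal ∧ Y ≤ c' i ∧ c' i ≤ X
    show (if (i : ℕ) = 0 then Y else K (l + 1 - i)).Normal ∧ Y ≤ (if (i : ℕ) = 0 then Y else K (l + 1 - i)) ∧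
      (if (i : ℕ) = 0 then Y else K (l + 1 - i)) ≤ X
    split_ifs
    · exact ⟨hY, le_rfl, hYX⟩
    · exact ⟨hKn _, hYK _, hKX _⟩

end Pool.Agent.DLR
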