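import Pool.Agent.DLR.F1
import Pool.Agent.DLF.E1

/-!
# [DLR-F2] the final statements
-/

set_option autoImplicit false

namespace Pool.Agent.DLR

open Pool.Agent.DLF
open scoped commutatorElement

/-- The bound in terms of the chief lengths of the sections. -/
theorem bound_chief {G : Type*} [Group G] [Finite G] (N : Subgroup G) [hNn : N.Normal]
    (hN : Group.IsNilpotent ↥N) (l : ℕ)
    (h : ∀ p : ℕ, p.Prime → ∀ X Y : Subgroup G, LevelSec p X Y →
      X ≤ (derivedSeries ↥N (Nat.clog 2 l + 2)).map N.subtype →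
      ¬ ∃ c : Fin (l + 2) → Subgroup G, StrictMono c ∧ ∀ i, (c i).Normal ∧ Y ≤ c i ∧ c i ≤ X) :
    derivedSeries ↥N (Nat.clog 2 l + 1 + Nat.clog 2 ((cdOver G N).ncard + 2)) = ⊥ := by
  apply bound_length N hN
  intro p hp X Y hXY hX
  by_contra hcon
  have hXN : X ≤ N := by
    refine hX.trans ?_
    rintro _ ⟨x, _, rfl⟩
    exact x.2
  exact h p hp X Y hXY hX (exists_chain N X Y hN hXY.sec.normal_left hXY.sec.normal_right
    hXY.sec.le hXN l hcon)

theorem pow_le_relIndex {G : Type*} [Group G] [Finite G] {p : ℕ} (hp : p.Prime)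
    (X : Subgroup G) (hX : IsPGroup p ↥X) (k : ℕ) : ∀ (c : Fin (k + 1) → Subgroup G),
    StrictMono c → c (Fin.last k) ≤ X → p ^ k ≤ (c 0).relIndex (c (Fin.last k)) := by
  have hpf : Fact p.Prime := ⟨hp⟩
  induction k with
  | zero =>
    intro c _ _
    simp
  | succ k ih =>
    intro c hc hcX
    have h1 := ih (fun i => c i.castSucc) (fun i j hij => hc (Fin.castSucc_lt_castSucc_iff.2 hij))
      ((hc (Fin.castSucc_lt_last (Fin.last k))).le.trans hcX)
    have hlt : c (Fin.last k).castSucc < c (Fin.last (k + 1)) :=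
      hc (Fin.castSucc_lt_last (Fin.last k))
    have h2 : (c 0).relIndex (c (Fin.last k).castSucc) *
        (c (Fin.last k).castSucc).relIndex (c (Fin.last (k + 1))) =
        (c 0).relIndex (c (Fin.last (k + 1))) := by
      apply Subgroup.relIndex_mul_relIndex
      · exact hc.monotone (Fin.zero_le _)
      · exact hlt.le
    have hpg : IsPGroup p ↥(c (Fin.last (k + 1))) := hX.to_le hcX
    have h3 : p ≤ (c (Fin.last k).castSucc).relIndex (c (Fin.last (k + 1))) := by
      obtain ⟨m, hm⟩ := hpg.index ((c (Fin.last k).castSucc).subgroupOf (c (Fin.last (k + 1))))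
      have h4 : (c (Fin.last k).castSucc).relIndex (c (Fin.last (k + 1))) = p ^ m := hm
      rw [h4]
      rcases Nat.eq_zero_or_pos m with h0 | h0
      · exfalso
        rw [h0, pow_zero, Subgroup.relIndex_eq_one] at h4
        exact absurd h4 (not_le_of_gt hlt)
      · exact Nat.le_self_pow h0.ne' p
    rw [← h2, pow_succ]
    exact Nat.mul_le_mul h1 h3

/-- The bound in terms of the orders of the sections. -/
theorem bound_rank {G : Type*} [Group G] [Finite G] (N : Subgroup G) [hNn : N.Normal]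
    (hN : Group.IsNilpotent ↥N) (l : ℕ)
    (h : ∀ p : ℕ, p.Prime → ∀ X Y : Subgroup G, LevelSec p X Y →
      X ≤ (derivedSeries ↥N (Nat.clog 2 l + 2)).map N.subtype → Y.relIndex X ≤ p ^ l) :
    derivedSeries ↥N (Nat.clog 2 l + 1 + Nat.clog 2 ((cdOver G N).ncard + 2)) = ⊥ := by
  apply bound_chief N hN
  rintro p hp X Y hXY hX ⟨c, hc, hcc⟩
  have h1 := pow_le_relIndex hp X hXY.pgroup (l + 1) c hc (hcc _).2.2
  have h2 := h p hp X Y hXY hX
  have h3 : Y.relIndex (c 0) * (c 0).relIndex (c (Fin.last (l + 1))) =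
      Y.relIndex (c (Fin.last (l + 1))) :=
    Subgroup.relIndex_mul_relIndex _ _ _ (hcc 0).2.1 (hc.monotone (Fin.zero_le _))
  have h4 : Y.relIndex (c (Fin.last (l + 1))) * (c (Fin.last (l + 1))).relIndex X = Y.relIndex X :=
    Subgroup.relIndex_mul_relIndex _ _ _ (hcc _).2.1 (hcc _).2.2
  have h5 : 0 < Y.relIndex (c 0) :=
    Nat.pos_of_ne_zero (Subgroup.index_ne_zero_of_finite (H := Y.subgroupOf (c 0)))
  have h6 : 0 < (c (Fin.last (l + 1))).relIndex X :=
    Nat.pos_of_ne_zero (Subgroup.index_ne_zero_of_finite (H := (c (Fin.last (l + 1))).subgroupOf X))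
  have h7 : (c 0).relIndex (c (Fin.last (l + 1))) ≤ Y.relIndex X := by
    rw [← h4, ← h3]
    calc (c 0).relIndex (c (Fin.last (l + 1))) = 1 * (c 0).relIndex (c (Fin.last (l + 1))) * 1 := by ring
      _ ≤ _ := Nat.mul_le_mul (Nat.mul_le_mul h5 le_rfl) h6
  have h8 : p ^ l < p ^ (l + 1) := Nat.pow_lt_pow_right hp.one_lt (Nat.lt_succ_self l)
  omega

/-- The class bound for a normal `p`-subgroup `Q` that is powerful (`p` odd) or has a powerfully embedded
derived subgroup. -/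
theorem class_bound {G : Type*} [Group G] [Finite G] {p : ℕ} (hp : p.Prime)
    (Q : Subgroup G) (hQn : Q.Normal) (hQ : IsPGroup p ↥Q)
    (h : (p ≠ 2 ∧ ⁅Q, Q⁆ ≤ pw Q p) ∨ ⁅⁅Q, Q⁆, Q⁆ ≤ pw ⁅Q, Q⁆ (if p = 2 then 4 else p)) :
    Q.lowerCentralSeries ((cdOver G ⁅Q, Q⁆).ncard + 1) = ⊥ := by
  have hpf : Fact p.Prime := ⟨hp⟩
  have hnil : Group.IsNilpotent ↥Q := hQ.isNilpotent
  apply lcs_eq_bot_of_PE Q hQ
  rcases h with ⟨h2, h⟩ | h
  · exact Or.inl ⟨h2, PE.of_powerful Q hnil hp h2 h⟩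
  · by_cases h2 : p = 2
    · subst h2
      rw [if_pos rfl] at h
      exact PE.of_sq h
    · rw [if_neg h2] at h
      exact Or.inl ⟨h2, h⟩

/-- The derived length when the Sylow subgroups are powerful. -/
theorem bound_powerful {G : Type*} [Group G] [Finite G] (N : Subgroup G) [hNn : N.Normal]
    (hN : Group.IsNilpotent ↥N)
    (h : ∀ (p : ℕ), p.Prime → ∀ Q : Subgroup G, Q.Normal → Q ≤ N → IsPGroup p ↥Q →
      ¬ p ∣ Q.relIndex N →
      (p ≠ 2 ∧ ⁅Q, Q⁆ ≤ pw Q p) ∨ ⁅⁅Q, Q⁆, Q⁆ ≤ pw ⁅Q, Q⁆ (if p = 2 then 4 else p)) :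
    derivedSeries ↥N (Nat.clog 2 ((cdOver G N).ncard + 2)) = ⊥ := by
  classical
  apply derivedSeries_of_sylow N hN
  intro p hp Q hQn hQp
  have hQN : (Q : Subgroup ↥N).map N.subtype ≤ N := by
    rintro _ ⟨x, _, rfl⟩
    exact x.2
  have hidx : ¬ p ∣ ((Q : Subgroup ↥N).map N.subtype).relIndex N := by
    have h1 : ((Q : Subgroup ↥N).map N.subtype).relIndex N = (Q : Subgroup ↥N).index := by
      unfold Subgroup.relIndex
      congr 1
      rw [Subgroup.subgroupOf, Subgroup.comap_map_eq_self_of_injective N.subtype_injective]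
    rw [h1]
    exact Q.not_dvd_index
  have h1 := class_bound hp.out _ hQn hQp (h p hp.out _ hQn hQN hQp hidx)
  apply derivedSeries_of_lcs _ h1
  have h4 : (cdOver G ⁅(Q : Subgroup ↥N).map N.subtype, (Q : Subgroup ↥N).map N.subtype⁆).ncard ≤
      (cdOver G N).ncard :=
    ncard_mono ((Subgroup.commutator_le_left _ _).trans hQN)
  have hs2 : (cdOver G N).ncard + 2 ≤ 2 ^ Nat.clog 2 ((cdOver G N).ncard + 2) :=
    Nat.le_pow_clog (by norm_num) _
  omega

end Pool.Agent.DLR
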