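import Pool.Agent.DLR.G3

/-!
# [DLR-G4] `p`-th powers act trivially on an elementary abelian section of short length
-/

set_option autoImplicit false

namespace Pool.Agent.DLR

open scoped commutatorElement

/-- In a commutative group `A` of exponent `p`, an endomorphism `f` with `(f - 1)^(p^t) = 0` satisfies
`f^(p^t) = 1`. -/
theorem pow_char_aux {A : Type*} [CommGroup A] {p : ℕ} (hp : p.Prime) (hA : ∀ a : A, a ^ p = 1)
    (t : ℕ) (f : A →* A) (h : ∀ a : A, ((fun b => f b / b)^[p ^ t]) a = 1) (a : A) :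
    f^[p ^ t] a = a := by
  classical
  let F : AddMonoid.End (Additive A) := MonoidHom.toAdditive f
  have hF : ∀ x : Additive A, F x = Additive.ofMul (f x.toMul) := fun x => rfl
  have hT : ∀ (n : ℕ) (x : Additive A), ((F - 1) ^ n) x =
      Additive.ofMul (((fun b => f b / b)^[n]) x.toMul) := by
    intro n
    induction n with
    | zero => intro x; rfl
    | succ n ih =>
      intro x
      rw [pow_succ', Function.iterate_succ_apply']
      show (F - 1) (((F - 1) ^ n) x) = _
      rw [ih]
      rfl
  have hP : ∀ (n : ℕ) (x : Additive A), (F ^ n) x = Additive.ofMul (f^[n] x.toMul) := by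
    intro n
    induction n with
    | zero => intro x; rfl
    | succ n ih =>
      intro x
      rw [pow_succ', Function.iterate_succ_apply']
      show F ((F ^ n) x) = _
      rw [ih]
      rfl
  obtain ⟨r, hr⟩ := Commute.exists_add_pow_prime_pow_eq hp (Commute.one_right (F - 1)) t
  have h1 := congrArg (fun E : AddMonoid.End (Additive A) => E (Additive.ofMul a)) hr
  simp only [sub_add_cancel] at h1
  have h2 : ((F - 1) ^ p ^ t) (Additive.ofMul a) = 0 := by
    rw [hT, toMul_ofMul, h]
    rfl
  have h3 : ∀ E : AddMonoid.End (Additive A), ((p : AddMonoid.End (Additive A)) * E) (Additive.ofMul a)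
      = 0 := by
    intro E
    rw [← nsmul_eq_mul]
    show p • E (Additive.ofMul a) = 0
    have := hA (E (Additive.ofMul a)).toMul
    exact this
  rw [hP] at h1
  have h4 : ((F - 1) ^ p ^ t + 1 ^ p ^ t + (p : AddMonoid.End (Additive A)) * (F - 1) * 1 * r)
      (Additive.ofMul a) = Additive.ofMul a := by
    have h5 : (p : AddMonoid.End (Additive A)) * (F - 1) * 1 * r =
        (p : AddMonoid.End (Additive A)) * ((F - 1) * 1 * r) := by
      simp only [mul_assoc]
    rw [h5, one_pow]
    show ((F - 1) ^ p ^ t) (Additive.ofMul a) + (1 : AddMonoid.End (Additive A)) (Additive.ofMul a) +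
      ((p : AddMonoid.End (Additive A)) * ((F - 1) * 1 * r)) (Additive.ofMul a) = _
    rw [h2, h3, zero_add, add_zero]
    rfl
  rw [h4] at h1
  exact h1

/-- If `[X, N, …, N] ≤ Y` (`p^t` factors) for an elementary abelian `p`-section `X / Y`, then `N^(p^t)`
centralises `X / Y`. -/
theorem comm_pw_of_length {G : Type*} [Group G] (X Y N : Subgroup G) {p : ℕ} (hp : p.Prime)
    (t : ℕ) (hXY : IsSec X Y p) (h : iterComm X N (p ^ t) ≤ Y) : ⁅X, pw N (p ^ t)⁆ ≤ Y := by
  classical
  have hX := hXY.normal_left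
  have hY := hXY.normal_right
  rw [Subgroup.commutator_comm]
  apply comm_pw_le
  intro m hm v hv
  -- the commutative group `X / Y` as a subgroup of `G / Y`
  let q := QuotientGroup.mk' Y
  let A : Subgroup (G ⧸ Y) := X.map q
  have hcomm : ∀ a b : A, a * b = b * a := by
    rintro ⟨_, a, ha, rfl⟩ ⟨_, b, hb, rfl⟩
    apply Subtype.ext
    exact (commute_mk hXY.comm ha hb).eq
  let _ : CommGroup A := { (inferInstance : Group A) with mul_comm := hcomm }
  have hA : ∀ a : A, a ^ p = 1 := by
    rintro ⟨_, a, ha, rfl⟩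
    apply Subtype.ext
    show q a ^ p = 1
    rw [← map_pow]
    exact mk_eq_one_of_mem (hXY.pow a ha)
  have hconj : ∀ a ∈ A, q m * a * (q m)⁻¹ ∈ A := by
    rintro _ ⟨a, ha, rfl⟩
    exact ⟨m * a * m⁻¹, hX.conj_mem a ha m, by simp [q]⟩
  let f : A →* A :=
    { toFun := fun a => ⟨q m * a * (q m)⁻¹, hconj a a.2⟩
      map_one' := by
        apply Subtype.ext
        simp
      map_mul' := by
        intro a b
        apply Subtype.ext
        show q m * (a * b : G ⧸ Y) * (q m)⁻¹ = (q m * a * (q m)⁻¹) * (q m * b * (q m)⁻¹)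
        group }
  have hiter : ∀ (n : ℕ) (a : A), ((((fun b => f b / b)^[n]) a : A) : G ⧸ Y) ∈
      (iterComm X N n).map q := by
    intro n
    induction n with
    | zero => intro a; exact a.2
    | succ n ih =>
      intro a
      rw [Function.iterate_succ_apply']
      set b := ((fun b => f b / b)^[n]) a with hb
      obtain ⟨y, hy, hyb⟩ := ih a
      refine ⟨m * y * m⁻¹ * y⁻¹, ?_, ?_⟩
      · show m * y * m⁻¹ * y⁻¹ ∈ ⁅iterComm X N n, N⁆
        rw [Subgroup.commutator_comm]
        exact Subgroup.commutator_mem_commutator hm hy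
      · rw [map_mul, map_mul, map_mul, map_inv, map_inv, hyb, ← hb]
        show _ = ((f b / b : A) : G ⧸ Y)
        rw [div_eq_mul_inv]
        rfl
  have hone : ∀ a : A, ((fun b => f b / b)^[p ^ t]) a = 1 := by
    intro a
    apply Subtype.ext
    obtain ⟨y, hy, hyb⟩ := hiter (p ^ t) a
    rw [← hyb]
    exact mk_eq_one_of_mem (h hy)
  have hfp := pow_char_aux hp hA t f hone ⟨q v, v, hv, rfl⟩
  have hfn : ∀ (n : ℕ) (a : A), ((f^[n] a : A) : G ⧸ Y) = q m ^ n * a * (q m ^ n)⁻¹ := by
    intro n
    induction n with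
    | zero => intro a; simp
    | succ n ih =>
      intro a
      rw [Function.iterate_succ_apply']
      show q m * ((f^[n] a : A) : G ⧸ Y) * (q m)⁻¹ = _
      rw [ih, pow_succ']
      group
  have h2 := congrArg Subtype.val hfp
  rw [hfn] at h2
  have h3 : q m ^ p ^ t * q v * (q m ^ p ^ t)⁻¹ = q v := h2
  have h4 : q m ^ p ^ t * q v = q v * q m ^ p ^ t := by
    rw [mul_inv_eq_iff_eq_mul] at h3
    exact h3
  show (q (v * m * v⁻¹)) ^ p ^ t = q m ^ p ^ t
  rw [map_mul, map_mul, map_inv, conj_pow, ← h4, mul_assoc, mul_inv_cancel, mul_one]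

end Pool.Agent.DLR
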