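import Pool.Agent.DLR.F2
import Pool.Agent.DLR.G4

/-!
# [DLR-F3] reduction to exponent `p` for small class
-/

set_option autoImplicit false

namespace Pool.Agent.DLR

open Pool.Agent.DLF
open scoped commutatorElement

/-- Powers of `N` act trivially on the sections of short length, so that only `N / N^(p^t)` matters. -/
theorem bound_class {G : Type*} [Group G] [Finite G] (N : Subgroup G) [hNn : N.Normal]
    (hN : Group.IsNilpotent ↥N) (n : ℕ)
    (h : ∀ p : ℕ, p.Prime → p ∣ Nat.card ↥N → ∃ t : ℕ,
      (derivedSeries ↥N n).map N.subtype ≤ pw N (p ^ t) ∧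
      (N.lowerCentralSeries (p ^ t + 2 ^ (n + 2) - 1) = ⊥ ∨
        ∀ X Y : Subgroup G, LevelSec p X Y → X ≤ (derivedSeries ↥N (n + 2)).map N.subtype →
          iterComm X N (p ^ t) ≤ Y)) :
    derivedSeries ↥N (n + 1 + Nat.clog 2 ((cdOver G N).ncard + 2)) = ⊥ := by
  classical
  apply reduction N hN n
  intro p hp X Y hXY hX
  have hpf : Fact p.Prime := ⟨hp⟩
  by_cases hX1 : X = ⊥
  · rw [hX1, Subgroup.commutator_bot_left]
    exact bot_le
  · have hXN : X ≤ N := by
      refine hX.trans ?_
      rintro _ ⟨x, _, rfl⟩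
      exact x.2
    have hnt : Nontrivial ↥X := (Subgroup.nontrivial_iff_ne_bot X).2 hX1
    have hpX : p ∣ Nat.card ↥X := by
      obtain ⟨m, hm0, hm⟩ := hXY.pgroup.nontrivial_iff_card.1 hnt
      rw [hm]
      exact dvd_pow_self p hm0.ne'
    have hpN : p ∣ Nat.card ↥N := hpX.trans (Subgroup.card_dvd_of_le hXN)
    obtain ⟨t, h2, h1⟩ := h p hp hpN
    have h5 : iterComm X N (p ^ t) ≤ Y := by
      rcases h1 with h1 | h1
      · have h3 : X ≤ N.lowerCentralSeries (2 ^ (n + 2) - 1) := by
          refine hX.trans ?_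
          rw [← Subgroup.top_subtype_lowerCentralSeries]
          exact Subgroup.map_mono (derivedSeries_le_lcs _)
        have h4 : ∀ k, iterComm X N k ≤ N.lowerCentralSeries (2 ^ (n + 2) - 1 + k) := by
          intro k
          induction k with
          | zero => exact h3
          | succ k ih =>
            rw [← add_assoc, Subgroup.lowerCentralSeries_succ]
            exact Subgroup.commutator_mono ih le_rfl
        refine (h4 (p ^ t)).trans ?_
        have h6 : 2 ^ (n + 2) - 1 + p ^ t = p ^ t + 2 ^ (n + 2) - 1 := by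
          have : 1 ≤ 2 ^ (n + 2) := Nat.one_le_two_pow
          omega
        rw [h6, h1]
        exact bot_le
      · exact h1 X Y hXY hX
    exact (Subgroup.commutator_mono le_rfl h2).trans (comm_pw_of_length X Y N hp t hXY.sec h5)

end Pool.Agent.DLR
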