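import Pool.Agent.DLR.F3

/-!
# [DLR-F4] the combined statement
-/

set_option autoImplicit false

namespace Pool.Agent.DLR

open Pool.Agent.DLF
open scoped commutatorElement

/-- One of several conditions under which `N^(n)` centralises the bottom section `X / Y`. -/
theorem comm_le_of_small {G : Type*} [Group G] [Finite G] (N : Subgroup G) [hNn : N.Normal]
    (hN : Group.IsNilpotent ↥N) (n : ℕ) {p : ℕ} (hp : p.Prime) (X Y : Subgroup G)
    (hXY : LevelSec p X Y) (hX : X ≤ (derivedSeries ↥N (n + 2)).map N.subtype)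
    (h : ⁅X, (derivedSeries ↥N n).map N.subtype⁆ ≤ Y ∨
      iterComm X N (2 ^ n) ≤ Y ∨
      (¬ ∃ c : Fin (2 ^ n + 2) → Subgroup G,
        StrictMono c ∧ ∀ i, (c i).Normal ∧ Y ≤ c i ∧ c i ≤ X) ∨
      Y.relIndex X ≤ p ^ 2 ^ n ∨
      ∃ t : ℕ, (derivedSeries ↥N n).map N.subtype ≤ pw N (p ^ t) ∧
        (Group.nilpotencyClass ↥N < p ^ t + 2 ^ (n + 2) ∨ iterComm X N (p ^ t) ≤ Y)) :
    ⁅X, (derivedSeries ↥N n).map N.subtype⁆ ≤ Y := by
  classical
  have hXN : X ≤ N := by
    refine hX.trans ?_
    rintro _ ⟨x, _, rfl⟩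
    exact x.2
  have hXn := hXY.sec.normal_left
  -- the condition with the iterated commutator
  have key : iterComm X N (2 ^ n) ≤ Y → ⁅X, (derivedSeries ↥N n).map N.subtype⁆ ≤ Y := by
    intro h1
    have h2 : (derivedSeries ↥N n).map N.subtype ≤ N.lowerCentralSeries (2 ^ n - 1) := by
      rw [← Subgroup.top_subtype_lowerCentralSeries]
      exact Subgroup.map_mono (derivedSeries_le_lcs _)
    have h3 := comm_lcs_le N (2 ^ n - 1) X hXn
    have h4 : 2 ^ n - 1 + 1 = 2 ^ n := by
      have : 1 ≤ 2 ^ n := Nat.one_le_two_pow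
      omega
    rw [h4] at h3
    exact (Subgroup.commutator_mono le_rfl h2).trans (h3.trans h1)
  have key2 : (¬ ∃ c : Fin (2 ^ n + 2) → Subgroup G,
        StrictMono c ∧ ∀ i, (c i).Normal ∧ Y ≤ c i ∧ c i ≤ X) → iterComm X N (2 ^ n) ≤ Y := by
    intro h1
    by_contra hcon
    exact h1 (exists_chain N X Y hN hXn hXY.sec.normal_right hXY.sec.le hXN (2 ^ n) hcon)
  rcases h with h | h | h | h | ⟨t, h2, h1⟩
  · exact h
  · exact key h
  · exact key (key2 h)
  · apply key
    apply key2
    rintro ⟨c, hc, hcc⟩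
    have h1 := pow_le_relIndex hp X hXY.pgroup (2 ^ n + 1) c hc (hcc _).2.2
    have h3 : Y.relIndex (c 0) * (c 0).relIndex (c (Fin.last (2 ^ n + 1))) =
        Y.relIndex (c (Fin.last (2 ^ n + 1))) :=
      Subgroup.relIndex_mul_relIndex _ _ _ (hcc 0).2.1 (hc.monotone (Fin.zero_le _))
    have h4 : Y.relIndex (c (Fin.last (2 ^ n + 1))) * (c (Fin.last (2 ^ n + 1))).relIndex X =
        Y.relIndex X :=
      Subgroup.relIndex_mul_relIndex _ _ _ (hcc _).2.1 (hcc _).2.2
    have h5 : 0 < Y.relIndex (c 0) :=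
      Nat.pos_of_ne_zero (Subgroup.index_ne_zero_of_finite (H := Y.subgroupOf (c 0)))
    have h6 : 0 < (c (Fin.last (2 ^ n + 1))).relIndex X :=
      Nat.pos_of_ne_zero
        (Subgroup.index_ne_zero_of_finite (H := (c (Fin.last (2 ^ n + 1))).subgroupOf X))
    have h7 : (c 0).relIndex (c (Fin.last (2 ^ n + 1))) ≤ Y.relIndex X := by
      rw [← h4, ← h3]
      calc (c 0).relIndex (c (Fin.last (2 ^ n + 1)))
          = 1 * (c 0).relIndex (c (Fin.last (2 ^ n + 1))) * 1 := by ring
        _ ≤ _ := Nat.mul_le_mul (Nat.mul_le_mul h5 le_rfl) h6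
    have h8 : p ^ 2 ^ n < p ^ (2 ^ n + 1) := Nat.pow_lt_pow_right hp.one_lt (Nat.lt_succ_self _)
    omega
  · have h5 : iterComm X N (p ^ t) ≤ Y := by
      rcases h1 with h1 | h1
      · have h3 : X ≤ N.lowerCentralSeries (2 ^ (n + 2) - 1) := by
          refine hX.trans ?_
          rw [← Subgroup.top_subtype_lowerCentralSeries]
          exact Subgroup.map_mono (derivedSeries_le_lcs _)
        have h4 : ∀ k, iterComm X N k ≤ N.lowerCentralSeries (2 ^ (n + 2) - 1 + k) := by
          intro k
          induction k with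
          | zero => exact h3
          | succ k ih =>
            rw [← add_assoc, Subgroup.lowerCentralSeries_succ]
            exact Subgroup.commutator_mono ih le_rfl
        have h6 : 1 ≤ 2 ^ (n + 2) := Nat.one_le_two_pow
        have h7 : Group.nilpotencyClass ↥N ≤ 2 ^ (n + 2) - 1 + p ^ t := by omega
        rw [← Subgroup.lowerCentralSeries_eq_bot_iff_nilpotencyClass_le] at h7
        refine (h4 (p ^ t)).trans ?_
        rw [← Subgroup.top_subtype_lowerCentralSeries, h7, Subgroup.map_bot]
        exact bot_le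
      · exact h1
    exact (Subgroup.commutator_mono le_rfl h2).trans (comm_pw_of_length X Y N hp t hXY.sec h5)

/-- The combined statement. -/
theorem combined {G : Type*} [Group G] [Finite G] (N : Subgroup G) [hNn : N.Normal]
    (hN : Group.IsNilpotent ↥N) (n : ℕ)
    (h : ∀ p : ℕ, p.Prime → p ∣ Nat.card ↥N →
      (∀ X Y : Subgroup G, LevelSec p X Y → X ≤ (derivedSeries ↥N (n + 2)).map N.subtype →
        ⁅X, (derivedSeries ↥N n).map N.subtype⁆ ≤ Y ∨
        iterComm X N (2 ^ n) ≤ Y ∨
        (¬ ∃ c : Fin (2 ^ n + 2) → Subgroup G,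
          StrictMono c ∧ ∀ i, (c i).Normal ∧ Y ≤ c i ∧ c i ≤ X) ∨
        Y.relIndex X ≤ p ^ 2 ^ n ∨
        ∃ t : ℕ, (derivedSeries ↥N n).map N.subtype ≤ pw N (p ^ t) ∧
          (Group.nilpotencyClass ↥N < p ^ t + 2 ^ (n + 2) ∨ iterComm X N (p ^ t) ≤ Y)) ∨
      (∀ Q : Subgroup G, Q.Normal → Q ≤ (derivedSeries ↥N n).map N.subtype → IsPGroup p ↥Q →
        ¬ p ∣ Q.relIndex ((derivedSeries ↥N n).map N.subtype) →
        (p ≠ 2 ∧ ⁅Q, Q⁆ ≤ pw Q p) ∨ ⁅⁅Q, Q⁆, Q⁆ ≤ pw ⁅Q, Q⁆ (if p = 2 then 4 else p))) :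
    derivedSeries ↥N (n + 1 + Nat.clog 2 ((cdOver G N).ncard + 2)) = ⊥ := by
  classical
  set s := Nat.clog 2 ((cdOver G N).ncard + 2) with hs
  have hs2 : (cdOver G N).ncard + 2 ≤ 2 ^ s := Nat.le_pow_clog (by norm_num) _
  let W : Subgroup G := (derivedSeries ↥N n).map N.subtype
  have hWn : W.Normal := inferInstance
  have hWN : W ≤ N := by
    rintro _ ⟨x, _, rfl⟩
    exact x.2
  have hWnil : Group.IsNilpotent ↥W := by
    have e := (derivedSeries ↥N n).equivMapOfInjective N.subtype N.subtype_injective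
    exact Group.isNilpotent_congr e |>.1 inferInstance
  -- it suffices to treat the Sylow subgroups of `W`
  suffices hW : derivedSeries ↥W (1 + s) = ⊥ by
    have h4 := map_derivedSeries_add N n (1 + s)
    rw [show derivedSeries ↥((derivedSeries ↥N n).map N.subtype) (1 + s) = ⊥ from hW,
      Subgroup.map_bot] at h4
    rw [eq_bot_iff]
    intro x hx
    rw [add_assoc] at hx
    have h5 := h4 ⟨x, hx, rfl⟩
    rw [Subgroup.mem_bot] at h5 ⊢
    exact Subtype.ext h5
  apply derivedSeries_of_sylow W hWnil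
  intro p hp Q hQn hQp
  set K : Subgroup G := (Q : Subgroup ↥W).map W.subtype with hK
  have hKW : K ≤ W := by
    rintro _ ⟨x, _, rfl⟩
    exact x.2
  have hidx : ¬ p ∣ K.relIndex W := by
    have h1 : K.relIndex W = (Q : Subgroup ↥W).index := by
      unfold Subgroup.relIndex
      congr 1
      rw [hK, Subgroup.subgroupOf, Subgroup.comap_map_eq_self_of_injective W.subtype_injective]
    rw [h1]
    exact Q.not_dvd_index
  have hcd : ∀ M : Subgroup G, M ≤ N → (cdOver G M).ncard + 2 ≤ 2 ^ s := fun M hM =>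
    (Nat.add_le_add_right (ncard_mono hM) 2).trans hs2
  by_cases hpN : p ∣ Nat.card ↥N
  · rcases h p hp.out hpN with h | h
    · -- first alternative: pass to the derived subgroup `V` of `K`
      let V : Subgroup G := (derivedSeries ↥K 1).map K.subtype
      have hV1 : V = ⁅K, K⁆ := by
        show (derivedSeries ↥K (0 + 1)).map K.subtype = _
        rw [derivedSeries_succ, Subgroup.map_commutator, derivedSeries_zero,
          ← MonoidHom.range_eq_map, Subgroup.range_subtype]
      have hKn : K.Normal := hQn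
      have hVn : V.Normal := by
        rw [hV1]
        exact Subgroup.commutator_normal _ _
      have hVK : V ≤ K := by
        rw [hV1]
        exact Subgroup.commutator_le_left _ _
      have hVp : IsPGroup p ↥V := hQp.to_le hVK
      have hVW : V ≤ ⁅W, W⁆ := by
        rw [hV1]
        exact Subgroup.commutator_mono hKW hKW
      have hWW : ⁅W, W⁆ = (derivedSeries ↥N (n + 1)).map N.subtype := by
        rw [derivedSeries_succ _ n, Subgroup.map_commutator]
      have hVV : ⁅V, V⁆ ≤ (derivedSeries ↥N (n + 2)).map N.subtype := by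
        have h1 : (derivedSeries ↥N (n + 2)).map N.subtype =
            ⁅(derivedSeries ↥N (n + 1)).map N.subtype, (derivedSeries ↥N (n + 1)).map N.subtype⁆ := by
          show (derivedSeries ↥N (n + 1 + 1)).map N.subtype = _
          rw [derivedSeries_succ _ (n + 1), Subgroup.map_commutator]
        rw [h1, ← hWW]
        exact Subgroup.commutator_mono hVW hVW
      have h2 := lcs_eq_bot_of_sec V hVp (by
        intro a d ρ hρ hd X Y hXY hX hXa hYa
        have h3 := sec_sq W p X Y hXY (by
          intro X' Y' hXY' hX' hY'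
          have hX'p : IsPGroup p ↥X' :=
            hVp.to_le (hX'.trans (hX.trans (Subgroup.commutator_le_left _ _)))
          have hlev : LevelSec p X' Y' := ⟨hXY', hX'p, a, d, ρ, hρ, hd, hX'.trans hXa,
            fun x hx hx1 => hY' (hYa ⟨hX' hx, hx1⟩)⟩
          have hX'n : X' ≤ (derivedSeries ↥N (n + 2)).map N.subtype := hX'.trans (hX.trans hVV)
          exact comm_le_of_small N hN n hp.out X' Y' hlev hX'n (h X' Y' hlev hX'n))
        exact (Subgroup.commutator_mono le_rfl hVW).trans h3)
      have h3 : derivedSeries ↥V s = ⊥ := by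
        apply derivedSeries_of_lcs _ h2
        have := hcd ⁅V, V⁆ (((Subgroup.commutator_le_left _ _).trans hVK).trans (hKW.trans hWN))
        omega
      have h4 := map_derivedSeries_add K 1 s
      rw [show derivedSeries ↥((derivedSeries ↥K 1).map K.subtype) s = ⊥ from h3,
        Subgroup.map_bot] at h4
      rw [eq_bot_iff]
      intro x hx
      have h5 := h4 ⟨x, hx, rfl⟩
      rw [Subgroup.mem_bot] at h5 ⊢
      exact Subtype.ext h5
    · have h1 := class_bound hp.out K hQn hQp (h K hQn hKW hQp hidx)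
      have h2 : derivedSeries ↥K s = ⊥ := by
        apply derivedSeries_of_lcs _ h1
        have := hcd ⁅K, K⁆ (((Subgroup.commutator_le_left _ _).trans hKW).trans hWN)
        omega
      rw [eq_bot_iff, ← h2]
      exact derivedSeries_antitone _ (by omega)
  · -- `K` is trivial
    have h1 : Nat.card ↥K ∣ Nat.card ↥N := Subgroup.card_dvd_of_le (hKW.trans hWN)
    have h2 : K = ⊥ := by
      by_contra hK1
      have hnt : Nontrivial ↥K := (Subgroup.nontrivial_iff_ne_bot K).2 hK1
      obtain ⟨m, hm0, hm⟩ := hQp.nontrivial_iff_card.1 hnt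
      apply hpN
      refine dvd_trans ?_ h1
      rw [hm]
      exact dvd_pow_self p hm0.ne'
    have : Subsingleton ↥K := by
      rw [h2]
      infer_instance
    exact Subsingleton.elim _ _

end Pool.Agent.DLR
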