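import Pool.Agent.DLR.Defs

/-!
# [DLR-G1] powers and commutators in a nilpotent normal subgroup centralising the abelian sections
-/

set_option autoImplicit false

namespace Pool.Agent.DLR

open scoped commutatorElement

/-- If `K ≤ V` and `K ≤ Z ⊔ [K, V]` with `V` nilpotent, then `K ≤ Z`. -/
theorem le_of_le_sup_comm {G : Type*} [Group G] (V K Z : Subgroup G) [V.Normal] [hZ : Z.Normal]
    [K.Normal] (hV : Group.IsNilpotent ↥V) (hKV : K ≤ V) (h : K ≤ Z ⊔ ⁅K, V⁆) : K ≤ Z := by
  have hind : ∀ n, K ≤ Z ⊔ V.lowerCentralSeries n := by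
    intro n
    induction n with
    | zero =>
      rw [Subgroup.lowerCentralSeries_zero]
      exact hKV.trans le_sup_right
    | succ n ih =>
      have hR : (Z ⊔ V.lowerCentralSeries (n + 1) : Subgroup G).Normal := by
        have : (V.lowerCentralSeries (n + 1)).Normal := inferInstance
        exact Subgroup.sup_normal _ _
      refine h.trans (sup_le le_sup_left ?_)
      refine (Subgroup.commutator_mono ih le_rfl).trans ?_
      apply comm_sup_le
      · exact (Subgroup.commutator_le_left Z V).trans le_sup_left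
      · rw [← Subgroup.lowerCentralSeries_succ]
        exact le_sup_right
  obtain ⟨n, hn⟩ := (Subgroup.isNilpotent_iff_lowerCentralSeries V).1 hV
  have h1 := hind n
  rwa [hn, sup_bot_eq] at h1

/-- the powerful embedding -/
theorem comm_le_pw {G : Type*} [Group G] (V M S : Subgroup G) [V.Normal] [M.Normal] [S.Normal]
    (hV : Group.IsNilpotent ↥V) (n : ℕ)
    (hC : ∀ Y : Subgroup G, IsSec M Y n → M ⊓ S ≤ Y → ⁅M, V⁆ ≤ Y) (hM : M ≤ ⁅V, V⁆) :
    ⁅M, V⁆ ≤ pw M n ⊔ (M ⊓ S) := by
  have hMV : M ≤ V := hM.trans (Subgroup.commutator_le_left V V)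
  have n1 : (⁅M, V⁆ : Subgroup G).Normal := Subgroup.commutator_normal _ _
  have n2 : (⁅⁅M, V⁆, V⁆ : Subgroup G).Normal := Subgroup.commutator_normal _ _
  have n0 : (M ⊓ S : Subgroup G).Normal := Subgroup.normal_inf_normal _ _
  have n4 : (pw M n ⊔ (M ⊓ S) : Subgroup G).Normal := Subgroup.sup_normal _ _
  have n3 : (pw M n ⊔ (M ⊓ S) ⊔ ⁅⁅M, V⁆, V⁆ : Subgroup G).Normal := Subgroup.sup_normal _ _
  apply le_of_le_sup_comm V ⁅M, V⁆ (pw M n ⊔ (M ⊓ S)) hV
    ((Subgroup.commutator_le_left M V).trans hMV)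
  apply hC
  · refine ⟨inferInstance, n3, ?_, ?_, ?_⟩
    · apply sup_le (sup_le (pw_le M n) inf_le_left)
      exact (Subgroup.commutator_le_left _ V).trans (Subgroup.commutator_le_left M V)
    · refine le_trans ?_ le_sup_right
      refine (Subgroup.commutator_mono le_rfl hM).trans ?_
      rw [Subgroup.commutator_comm]
      apply three
      · rw [Subgroup.commutator_comm V M]
      · exact le_rfl
    · intro x hx
      have h1 : pw M n ≤ pw M n ⊔ (M ⊓ S) ⊔ ⁅⁅M, V⁆, V⁆ := le_sup_left.trans le_sup_left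
      exact h1 (pow_mem_pw hx n)
  · exact le_sup_right.trans le_sup_left

/-- From sections of exponent `p` to sections of exponent `p ^ 2`. -/
theorem sec_sq {G : Type*} [Group G] (W : Subgroup G) [W.Normal] (p : ℕ) (X Y : Subgroup G)
    (hXY : IsSec X Y (p ^ 2))
    (h : ∀ X' Y' : Subgroup G, IsSec X' Y' p → X' ≤ X → Y ≤ Y' → ⁅X', W⁆ ≤ Y') :
    ⁅X, ⁅W, W⁆⁆ ≤ Y := by
  have hX := hXY.normal_left
  have hY := hXY.normal_right
  have hX1 : (pw X p ⊔ Y : Subgroup G).Normal := Subgroup.sup_normal _ _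
  have hle : pw X p ⊔ Y ≤ X := sup_le (pw_le X p) hXY.le
  have h1 : IsSec X (pw X p ⊔ Y) p :=
    ⟨hX, hX1, hle, hXY.comm.trans le_sup_right, fun x hx =>
      (le_sup_left : pw X p ≤ _) (pow_mem_pw hx p)⟩
  have h2 : IsSec (pw X p ⊔ Y) Y p := by
    refine ⟨hX1, hY, le_sup_right, (Subgroup.commutator_mono hle hle).trans hXY.comm, ?_⟩
    -- the elements of `X` with `p`-th power in `Y` form a subgroup
    have hcomm : ∀ a ∈ X, ∀ b ∈ X, (QuotientGroup.mk' Y) a * (QuotientGroup.mk' Y) b
        = (QuotientGroup.mk' Y) b * (QuotientGroup.mk' Y) a := by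
      intro a ha b hb
      have h3 : ⁅a, b⁆ ∈ Y := hXY.comm (Subgroup.commutator_mem_commutator ha hb)
      have h4 : (QuotientGroup.mk' Y) ⁅a, b⁆ = 1 := by
        rw [QuotientGroup.mk'_apply, QuotientGroup.eq_one_iff]
        exact h3
      rw [map_commutatorElement, commutatorElement_eq_one_iff_mul_comm] at h4
      exact h4
    have hmem : ∀ a : G, a ∈ Y ↔ (QuotientGroup.mk' Y) a = 1 := by
      intro a
      rw [QuotientGroup.mk'_apply, QuotientGroup.eq_one_iff]
    let S : Subgroup G :=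
      { carrier := {x | x ∈ X ∧ x ^ p ∈ Y}
        one_mem' := ⟨X.one_mem, by rw [one_pow]; exact Y.one_mem⟩
        mul_mem' := by
          rintro a b ⟨ha, ha'⟩ ⟨hb, hb'⟩
          refine ⟨X.mul_mem ha hb, ?_⟩
          rw [hmem] at ha' hb' ⊢
          rw [map_pow] at ha' hb' ⊢
          rw [map_mul, Commute.mul_pow (hcomm a ha b hb), ha', hb', one_mul]
        inv_mem' := by
          rintro a ⟨ha, ha'⟩
          refine ⟨X.inv_mem ha, ?_⟩
          rw [inv_pow]
          exact Y.inv_mem ha' }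
    have hS : pw X p ⊔ Y ≤ S := by
      apply sup_le
      · rw [pw_le_iff]
        intro m hm
        refine ⟨X.pow_mem hm p, ?_⟩
        rw [← pow_mul, ← pow_two]
        exact hXY.pow m hm
      · intro y hy
        exact ⟨hXY.le hy, Y.pow_mem hy p⟩
    intro x hx
    exact (hS hx).2
  have h3 := h _ _ h1 le_rfl le_sup_right
  have h4 := h _ _ h2 hle le_rfl
  have h5 : ⁅⁅X, W⁆, W⁆ ≤ Y := (Subgroup.commutator_mono h3 le_rfl).trans h4
  rw [Subgroup.commutator_comm]
  apply three
  · rw [Subgroup.commutator_comm W X]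
    exact h5
  · exact h5

end Pool.Agent.DLR
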