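import Pool.Agent.DLR.Defs
import Pool.Agent.DLF.E1

/-!
# [DLR-G2] a central element of order `p` moving a point; the power calculus
-/

set_option autoImplicit false

namespace Pool.Agent.DLR

open scoped commutatorElement

/-- The power calculus. -/
theorem pow_eq_one_of_prod {P : Type*} [Group P] [Finite P] {p : ℕ} (hp : p.Prime)
    (V M S : Subgroup P) [hMn : M.Normal] [hSn : S.Normal] (hSM : S ≤ M) (hM : IsPGroup p ↥M)
    (hPE : PES p M V S) (lam : P → ℂ)
    (h1 : ∀ a ∈ M, ∀ b ∈ M, lam (a * b) = lam a * lam b) (h0 : lam 1 = 1)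
    (hS : ∀ s ∈ S, lam s = 1)
    (g : P) (hg : g ∈ V)
    (hprod : ∀ m ∈ M, ∏ j ∈ Finset.range p, lam ((g ^ j)⁻¹ * m * g ^ j) = 1) :
    ∀ m ∈ M, lam m ^ p = 1 := by
  classical
  have hpf : Fact p.Prime := ⟨hp⟩
  have hpw : ∀ m ∈ M, ∀ n : ℕ, lam (m ^ n) = lam m ^ n := by
    intro m hm n
    induction n with
    | zero => rw [pow_zero, pow_zero, h0]
    | succ n ih => rw [pow_succ, h1 _ (M.pow_mem hm n) _ hm, ih, pow_succ]
  -- a common exponent
  have hex : ∃ b : ℕ, ∀ m ∈ M, lam m ^ p ^ b = 1 := by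
    obtain ⟨n, hn⟩ := IsPGroup.iff_card.1 hM
    refine ⟨n, fun m hm => ?_⟩
    rw [← hpw m hm, ← hn]
    have : (⟨m, hm⟩ : ↥M) ^ Nat.card ↥M = 1 := pow_card_eq_one'
    have h2 := congrArg (Subtype.val) this
    rw [Subgroup.coe_pow, Subgroup.coe_one] at h2
    rw [h2, h0]
  have hspec := Nat.find_spec hex
  by_cases hb : Nat.find hex ≤ 1
  · intro m hm
    have h2 := hspec m hm
    obtain ⟨k, hk⟩ := Nat.exists_eq_add_of_le hb
    have h3 : p = p ^ Nat.find hex * p ^ k := by rw [← pow_add, ← hk, pow_one]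
    conv_lhs => rw [h3]
    rw [pow_mul, h2, one_pow]
  · exfalso
    obtain ⟨b, hb2⟩ : ∃ b, Nat.find hex = b + 2 := ⟨Nat.find hex - 2, by omega⟩
    rw [hb2] at hspec
    apply Nat.find_min hex (m := b + 1) (by omega)
    -- multiplicative functions on `M` killed by `p ^ (c + 1)` are killed by `p ^ c` on `pw K p`
    have hkill : ∀ (f : P → ℂ) (K : Subgroup P), K ≤ M →
        (∀ a ∈ M, ∀ b ∈ M, f (a * b) = f a * f b) → (∀ s ∈ S, f s = 1) → ∀ c : ℕ,
        (∀ a ∈ K, f a ^ p ^ (c + 1) = 1) → ∀ w ∈ pw K p ⊔ S, f w ^ p ^ c = 1 := by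
      intro f K hKM hf hfS c hc w hw
      have hf1 : f 1 = 1 := hfS 1 S.one_mem
      have hfpw : ∀ m ∈ M, ∀ n : ℕ, f (m ^ n) = f m ^ n := by
        intro m hm n
        induction n with
        | zero => rw [pow_zero, pow_zero, hf1]
        | succ n ih => rw [pow_succ, hf _ (M.pow_mem hm n) _ hm, ih, pow_succ]
      have hT : pw K p ⊔ S ≤
          { carrier := {x | x ∈ M ∧ f x ^ p ^ c = 1}
            one_mem' := ⟨M.one_mem, by rw [hf1, one_pow]⟩
            mul_mem' := by
              rintro x y ⟨hx, hx'⟩ ⟨hy, hy'⟩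
              exact ⟨M.mul_mem hx hy, by rw [hf x hx y hy, mul_pow, hx', hy', one_mul]⟩
            inv_mem' := by
              rintro x ⟨hx, hx'⟩
              refine ⟨M.inv_mem hx, ?_⟩
              have h2 : f x * f x⁻¹ = 1 := by
                rw [← hf x hx x⁻¹ (M.inv_mem hx), mul_inv_cancel, hf1]
              have h3 := congrArg (fun z => z ^ p ^ c) h2
              simp only [mul_pow, hx', one_mul, one_pow] at h3
              exact h3 : Subgroup P } := by
        apply sup_le
        · rw [pw_le_iff]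
          intro m hm
          refine ⟨M.pow_mem (hKM hm) _, ?_⟩
          rw [hfpw m (hKM hm), ← pow_mul, ← pow_succ']
          exact hc m hm
        · intro s hs
          exact ⟨hSM hs, by rw [hfS s hs, one_pow]⟩
      exact (hT hw).2
    have hpwS : pw M p ⊔ S ≤ M := sup_le (pw_le M p) hSM
    have hconj : ∀ (x : P) (m : P), m ∈ M → x⁻¹ * m * x ∈ M := by
      intro x m hm
      have := hMn.conj_mem m hm x⁻¹
      simpa using this
    rcases hPE with ⟨hp2, hPE⟩ | hPE
    · -- `p` odd, `[M, V] ≤ M^p`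
      let τ : P → ℂ := fun m => lam (m⁻¹ * (g⁻¹ * m * g))
      have hcm : ∀ m ∈ M, m⁻¹ * (g⁻¹ * m * g) ∈ pw M p ⊔ S := by
        intro m hm
        have h2 : m⁻¹ * (g⁻¹ * m * g) = ⁅m⁻¹, g⁻¹⁆ := by
          rw [commutatorElement_def]; group
        rw [h2]
        exact hPE (Subgroup.commutator_mem_commutator (M.inv_mem hm) (V.inv_mem hg))
      have hlamτ : ∀ m ∈ M, lam (g⁻¹ * m * g) = lam m * τ m := by
        intro m hm
        show _ = lam m * lam (m⁻¹ * (g⁻¹ * m * g))
        rw [← h1 m hm _ (hpwS (hcm m hm))]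
        congr 1
        group
      have hlam0 : ∀ m ∈ M, lam m ≠ 0 := by
        intro m hm h2
        have h3 := hspec m hm
        rw [h2, zero_pow (by have := hp.pos; positivity)] at h3
        exact zero_ne_one h3
      have hτmul : ∀ a ∈ M, ∀ b ∈ M, τ (a * b) = τ a * τ b := by
        intro a ha b hb
        have h2 := hlamτ (a * b) (M.mul_mem ha hb)
        have h3 : g⁻¹ * (a * b) * g = (g⁻¹ * a * g) * (g⁻¹ * b * g) := by group
        rw [h3, h1 _ (hconj g a ha) _ (hconj g b hb), hlamτ a ha, hlamτ b hb, h1 a ha b hb] at h2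
        have h4 : lam a * lam b ≠ 0 := mul_ne_zero (hlam0 a ha) (hlam0 b hb)
        apply mul_left_cancel₀ h4
        rw [← h2]
        ring
      have hτS : ∀ s ∈ S, τ s = 1 := by
        intro s hs
        apply hS
        have h2 := hSn.conj_mem s hs g⁻¹
        rw [inv_inv] at h2
        exact S.mul_mem (S.inv_mem hs) h2
      have hτpow : ∀ m ∈ M, τ m ^ p ^ (b + 1) = 1 := by
        intro m hm
        exact hkill lam M le_rfl h1 hS (b + 1) hspec _ (hcm m hm)
      have hτpow2 : ∀ m ∈ M, τ (g⁻¹ * m * g) ^ p ^ b = τ m ^ p ^ b := by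
        intro m hm
        have h2 := hkill τ M le_rfl hτmul hτS b hτpow _ (hcm m hm)
        have h3 : g⁻¹ * m * g = m * (m⁻¹ * (g⁻¹ * m * g)) := by group
        rw [h3, hτmul m hm _ (hpwS (hcm m hm)), mul_pow, h2, mul_one]
      have hiter : ∀ (j : ℕ), ∀ m ∈ M,
          τ ((g ^ j)⁻¹ * m * g ^ j) ^ p ^ b = τ m ^ p ^ b := by
        intro j
        induction j with
        | zero => intro m _; simp
        | succ j ih =>
          intro m hm
          have h2 : (g ^ (j + 1))⁻¹ * m * g ^ (j + 1) = (g ^ j)⁻¹ * (g⁻¹ * m * g) * g ^ j := by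
            rw [pow_succ']; group
          rw [h2, ih _ (hconj g m hm), hτpow2 m hm]
      have hterm : ∀ (j : ℕ), ∀ m ∈ M,
          lam ((g ^ j)⁻¹ * m * g ^ j) ^ p ^ b = (lam m ^ p ^ b) * (τ m ^ p ^ b) ^ j := by
        intro j
        induction j with
        | zero => intro m _; simp
        | succ j ih =>
          intro m hm
          have h2 : (g ^ (j + 1))⁻¹ * m * g ^ (j + 1) = g⁻¹ * ((g ^ j)⁻¹ * m * g ^ j) * g := by
            rw [pow_succ]; group
          rw [h2, hlamτ _ (hconj (g ^ j) m hm), mul_pow, ih m hm, hiter j m hm, pow_succ]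
          ring
      intro m hm
      have h4 := congrArg (fun z => z ^ p ^ b) (hprod m hm)
      simp only [one_pow] at h4
      rw [← Finset.prod_pow, Finset.prod_congr rfl (fun j _ => hterm j m hm),
        Finset.prod_mul_distrib, Finset.prod_const, Finset.card_range, Finset.prod_pow_eq_pow_sum,
        ← pow_mul, ← pow_succ] at h4
      obtain ⟨k, hk⟩ : p ∣ ∑ j ∈ Finset.range p, j := by
        rw [Finset.sum_range_id]
        have hodd : ¬ 2 ∣ p := by
          intro h2
          exact hp2 ((Nat.prime_dvd_prime_iff_eq Nat.prime_two hp).1 h2).symm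
        obtain ⟨c, hc⟩ : 2 ∣ p - 1 := by omega
        rw [hc, mul_left_comm, Nat.mul_div_cancel_left _ (by norm_num)]
        exact dvd_mul_right _ _
      rw [hk, ← pow_mul, ← mul_assoc, ← pow_succ, pow_mul, hτpow m hm, one_pow, mul_one] at h4
      exact h4
    · -- `[M, V] ≤ (M^p)^p`
      intro m hm
      have hterm : ∀ j, lam ((g ^ j)⁻¹ * m * g ^ j) ^ p ^ b = lam m ^ p ^ b := by
        intro j
        have h2 : (g ^ j)⁻¹ * m * g ^ j = m * ⁅m⁻¹, (g ^ j)⁻¹⁆ := by
          rw [commutatorElement_def]; group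
        have h3 : ⁅m⁻¹, (g ^ j)⁻¹⁆ ∈ pw (pw M p) p ⊔ S :=
          hPE (Subgroup.commutator_mem_commutator (M.inv_mem hm) (V.inv_mem (V.pow_mem hg j)))
        have h4 := hkill lam (pw M p) (pw_le M p) h1 hS b
          (fun a ha => hkill lam M le_rfl h1 hS (b + 1) hspec a (Subgroup.mem_sup_left ha)) _ h3
        have h5 : pw (pw M p) p ⊔ S ≤ M := sup_le ((pw_le _ p).trans (pw_le M p)) hSM
        rw [h2, h1 m hm _ (h5 h3), mul_pow, h4, mul_one]
      have h4 := congrArg (fun z => z ^ p ^ b) (hprod m hm)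
      simp only [one_pow] at h4
      rw [← Finset.prod_pow, Finset.prod_congr rfl (fun j _ => hterm j), Finset.prod_const,
        Finset.card_range, ← pow_mul, ← pow_succ] at h4
      exact h4

theorem exists_central {P : Type*} [Group P] [Finite P] {p : ℕ} [hp : Fact p.Prime]
    (hP : IsPGroup p P) {α : Type*} (π : P →* Equiv.Perm α) (V : Subgroup P) [V.Normal]
    (h : ∃ v ∈ V, π v ≠ 1) :
    ∃ g ∈ V, π g ≠ 1 ∧ (∀ x, π g * π x = π x * π g) ∧ π g ^ p = 1 := by
  classical
  let R := π.range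
  have hRp : IsPGroup p ↥R := by
    have := hP.of_surjective π.rangeRestrict π.rangeRestrict_surjective
    exact this
  have hRf : Finite ↥R := Finite.of_surjective _ π.rangeRestrict_surjective
  have hnil : Group.IsNilpotent ↥R := hRp.isNilpotent
  let H : Subgroup ↥R := V.map π.rangeRestrict
  have hHn : H.Normal := Subgroup.Normal.map inferInstance _ π.rangeRestrict_surjective
  have hH : H ≠ ⊥ := by
    obtain ⟨v, hv, hv1⟩ := h
    intro hb
    apply hv1
    have h1 : π.rangeRestrict v ∈ H := ⟨v, hv, rfl⟩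
    rw [hb, Subgroup.mem_bot] at h1
    exact congrArg Subtype.val h1
  obtain ⟨x, hxH, hx1, hxc⟩ := Pool.Agent.DLF.e1_meet H hH
  obtain ⟨v, hv, rfl⟩ := hxH
  obtain ⟨k, hk⟩ := (IsPGroup.iff_orderOf.1 hRp) (π.rangeRestrict v)
  cases k with
  | zero =>
    rw [pow_zero, orderOf_eq_one_iff] at hk
    exact absurd hk hx1
  | succ k =>
    have hval : ∀ n : ℕ, π (v ^ n) = ((π.rangeRestrict v) ^ n : ↥R) := by
      intro n
      rw [Subgroup.coe_pow, map_pow]
      rfl
    refine ⟨v ^ p ^ k, V.pow_mem hv _, ?_, ?_, ?_⟩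
    · intro h1
      rw [hval] at h1
      have h2 : (π.rangeRestrict v) ^ p ^ k = 1 := Subtype.ext h1
      have h3 := orderOf_dvd_of_pow_eq_one h2
      rw [hk] at h3
      have h4 := Nat.le_of_dvd (pow_pos hp.out.pos _) h3
      have h5 : p ^ k < p ^ (k + 1) := Nat.pow_lt_pow_right hp.out.one_lt (Nat.lt_succ_self k)
      omega
    · intro y
      have h1 : (π.rangeRestrict v) ^ p ^ k ∈ Subgroup.center ↥R := Subgroup.pow_mem _ hxc _
      rw [Subgroup.mem_center_iff] at h1
      have h2 := congrArg Subtype.val (h1 (π.rangeRestrict y))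
      rw [Subgroup.coe_mul, Subgroup.coe_mul] at h2
      rw [hval]
      exact h2.symm
    · rw [← map_pow, ← pow_mul, ← pow_succ, hval]
      have h1 : (π.rangeRestrict v) ^ p ^ (k + 1) = 1 := by
        rw [← hk]; exact pow_orderOf_eq_one _
      rw [h1]
      rfl

end Pool.Agent.DLR
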