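import Pool.Agent.DLR.G2
import Pool.Agent.DLF.H4

/-!
# [DLR-R1] the key step

`P` a finite `p`-group, `ρ` irreducible of degree `d ≥ 2`, `M ≤ [V, V]` killed by all smaller degrees,
`M` powerfully embedded in `V` modulo the kernel of `ρ`. Then `ρ` kills `M^p`.
-/

set_option autoImplicit false

namespace Pool.Agent.DLR

open Pool.Agent.DLF Module
open scoped commutatorElement

/-- The product of the coefficients over a cycle of a permutation commuting with the action. -/
theorem block_prod {P : Type*} [Group P] [Finite P] {d : ℕ} (π : P → Fin d → Fin d)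
    (c : P → Fin d → ℂ) (h1 : ∀ i, π 1 i = i) (hm : ∀ g h i, π (g * h) i = π g (π h i))
    (c1 : ∀ i, c 1 i = 1) (cm : ∀ g h i, c (g * h) i = c h i * c g (π h i))
    (s : Fin d → Fin d) (hs : ∀ g i, s (π g i) = π g (s i)) (q : ℕ)
    (hsq : ∀ i, s^[q + 1] i = i) (hne : ∃ i, s i ≠ i) {m : P} (hpm : ∀ i, π m i = i)
    (hF : ∀ F ∈ coeffSpan P (d - 1), F m = F 1) (i : Fin d) :
    ∏ j ∈ Finset.range (q + 1), c m (s^[j] i) = 1 := by
  classical
  let γ : P → Fin d → ℂ := fun g i => ∏ j ∈ Finset.range (q + 1), c g (s^[j] i)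
  have hsj : ∀ (j : ℕ) (g : P) (i : Fin d), s^[j] (π g i) = π g (s^[j] i) := by
    intro j g
    induction j with
    | zero => intro i; rfl
    | succ j ih =>
      intro i
      rw [Function.iterate_succ_apply, Function.iterate_succ_apply, hs, ih]
  have γs : ∀ g i, γ g (s i) = γ g i := by
    intro g i
    show ∏ j ∈ Finset.range (q + 1), c g (s^[j] (s i)) = ∏ j ∈ Finset.range (q + 1), c g (s^[j] i)
    rw [Finset.prod_range_succ, Finset.prod_range_succ' (fun j => c g (s^[j] i))]
    congr 1
    rw [← Function.iterate_succ_apply, hsq]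
    rfl
  have γm : ∀ g h i, γ (g * h) i = γ h i * γ g (π h i) := by
    intro g h i
    show ∏ j ∈ Finset.range (q + 1), c (g * h) (s^[j] i) =
      (∏ j ∈ Finset.range (q + 1), c h (s^[j] i)) * ∏ j ∈ Finset.range (q + 1), c g (s^[j] (π h i))
    rw [← Finset.prod_mul_distrib]
    apply Finset.prod_congr rfl
    intro j _
    rw [cm, hsj]
  have γ1 : ∀ i, γ 1 i = 1 := by
    intro i
    show ∏ j ∈ Finset.range (q + 1), c 1 (s^[j] i) = 1
    exact Finset.prod_eq_one (fun j _ => c1 _)
  let W : Submodule ℂ (Fin d → ℂ) :=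
    { carrier := {f | ∀ i, f (s i) = f i}
      add_mem' := by
        intro a b ha hb i
        rw [Pi.add_apply, Pi.add_apply, ha, hb]
      zero_mem' := by intro i; rfl
      smul_mem' := by
        intro c a ha i
        rw [Pi.smul_apply, Pi.smul_apply, ha] }
  have hWmem : ∀ (g : P) (f : Fin d → ℂ), f ∈ W →
      (fun i => γ g (π g⁻¹ i) * f (π g⁻¹ i)) ∈ W := by
    intro g f hf i
    show γ g (π g⁻¹ (s i)) * f (π g⁻¹ (s i)) = γ g (π g⁻¹ i) * f (π g⁻¹ i)
    rw [← hs, γs, hf]
  let σ : P →* Module.End ℂ W :=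
    { toFun := fun g =>
        { toFun := fun f => ⟨fun i => γ g (π g⁻¹ i) * (f : Fin d → ℂ) (π g⁻¹ i), hWmem g f f.2⟩
          map_add' := by
            intro a b
            apply Subtype.ext
            funext i
            show γ g (π g⁻¹ i) * ((a : Fin d → ℂ) (π g⁻¹ i) + (b : Fin d → ℂ) (π g⁻¹ i)) =
              γ g (π g⁻¹ i) * (a : Fin d → ℂ) (π g⁻¹ i) + γ g (π g⁻¹ i) * (b : Fin d → ℂ) (π g⁻¹ i)
            ring
          map_smul' := by
            intro r a
            apply Subtype.ext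
            funext i
            show γ g (π g⁻¹ i) * (r * (a : Fin d → ℂ) (π g⁻¹ i)) =
              r * (γ g (π g⁻¹ i) * (a : Fin d → ℂ) (π g⁻¹ i))
            ring }
      map_one' := by
        apply LinearMap.ext
        intro f
        apply Subtype.ext
        funext i
        show γ 1 (π (1 : P)⁻¹ i) * (f : Fin d → ℂ) (π (1 : P)⁻¹ i) = (f : Fin d → ℂ) i
        rw [inv_one, h1, γ1, one_mul]
      map_mul' := by
        intro g h
        apply LinearMap.ext
        intro f
        apply Subtype.ext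
        funext i
        show γ (g * h) (π (g * h)⁻¹ i) * (f : Fin d → ℂ) (π (g * h)⁻¹ i) =
          γ g (π g⁻¹ i) * (γ h (π h⁻¹ (π g⁻¹ i)) * (f : Fin d → ℂ) (π h⁻¹ (π g⁻¹ i)))
        rw [mul_inv_rev, hm, γm]
        have h2 : π h (π h⁻¹ (π g⁻¹ i)) = π g⁻¹ i := by rw [← hm, mul_inv_cancel, h1]
        rw [h2]
        ring }
  have hWne : W ≠ ⊤ := by
    obtain ⟨i, hi⟩ := hne
    intro hW
    have h2 : (Pi.single i 1 : Fin d → ℂ) ∈ W := by rw [hW]; trivial
    have h3 := h2 i
    rw [Pi.single_eq_same, Pi.single_eq_of_ne hi] at h3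
    norm_num at h3
  have hdim : finrank ℂ W ≤ d - 1 := by
    have h2 := Submodule.finrank_lt hWne
    rw [Module.finrank_fin_fun] at h2
    omega
  let one : W := ⟨fun _ => 1, fun _ => rfl⟩
  have h2 := coeff_mem σ ((LinearMap.proj i).comp W.subtype) one
  have h3 := hF _ (coeffSpan_mono P hdim h2)
  have h4 : γ m (π m⁻¹ i) * 1 = γ 1 (π (1 : P)⁻¹ i) * 1 := h3
  rw [mul_one, mul_one, inv_one, h1, γ1] at h4
  have h5 : π m⁻¹ i = i := by
    have h6 := hm m⁻¹ m i
    rw [inv_mul_cancel, h1, hpm] at h6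
    exact h6.symm
  rw [h5] at h4
  exact h4

/-- The key step. -/
theorem key_power {P : Type*} [Group P] [Finite P] {p : ℕ} [hp : Fact p.Prime]
    (hP : IsPGroup p P) {d : ℕ} (hd : 2 ≤ d) (ρ : P →* Matrix (Fin d) (Fin d) ℂ) (hρ : Irr ρ)
    (V M S : Subgroup P) [V.Normal] [M.Normal] [S.Normal] (hMV : M ≤ ⁅V, V⁆) (hSM : S ≤ M)
    (hPE : PES p M V S) (hρS : ∀ s ∈ S, ρ s = 1)
    (hM : ∀ x ∈ M, ∀ (e : ℕ) (τ : P →* Matrix (Fin e) (Fin e) ℂ), Irr τ → e ≤ d - 1 → τ x = 1) :
    ∀ m ∈ M, ρ (m ^ p) = 1 := by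
  classical
  have hnil : Group.IsNilpotent P := hP.isNilpotent
  let R : P →* Module.End ℂ (Fin d → ℂ) :=
    { toFun := fun g => Matrix.toLin' (ρ g)
      map_one' := by rw [map_one, Matrix.toLin'_one]; rfl
      map_mul' := by
        intro g h
        rw [map_mul, Matrix.toLin'_mul]
        rfl }
  have hR : ∀ g v, R g v = Matrix.mulVec (ρ g) v := by
    intro g v
    exact Matrix.toLin'_apply _ _
  obtain ⟨b, hb'⟩ := isMonomial_of_nilpotent ρ hρ
  have hb : ∀ (g : P) (i : Fin d), ∃ (j : Fin d) (c : ℂ), R g (b i) = c • b j := by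
    intro g i
    obtain ⟨j, c, h⟩ := hb' g i
    exact ⟨j, c, by rw [hR]; exact h⟩
  choose π c hπ using hb
  have hc : ∀ g i, c g i ≠ 0 := by
    intro g i h0
    have h1 : R g⁻¹ (R g (b i)) = b i := by
      rw [← Module.End.mul_apply, ← map_mul, inv_mul_cancel, map_one]
      rfl
    rw [hπ g i, h0, zero_smul, map_zero] at h1
    exact b.ne_zero i h1.symm
  have h1 : ∀ i, π 1 i = i := by
    intro i
    have h2 := hπ 1 i
    rw [map_one] at h2
    apply t2_uniq b (a := 1) one_ne_zero (c := c 1 i)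
    rw [one_smul]
    exact h2
  have hm : ∀ g h i, π (g * h) i = π g (π h i) := by
    intro g h i
    have h2 := hπ (g * h) i
    rw [map_mul, Module.End.mul_apply, hπ h i, map_smul, hπ g (π h i), smul_smul] at h2
    exact t2_uniq b (mul_ne_zero (hc h i) (hc g (π h i))) h2
  have cinj : ∀ (i : Fin d) (a a' : ℂ), a • b i = a' • b i → a = a' := by
    intro i a a' h
    have h2 := congrArg (fun v => b.repr v i) h
    simpa using h2
  have c1 : ∀ i, c 1 i = 1 := by
    intro i
    have h2 := hπ 1 i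
    rw [map_one, h1] at h2
    apply cinj i
    rw [one_smul]
    exact h2.symm
  have cm : ∀ g h i, c (g * h) i = c h i * c g (π h i) := by
    intro g h i
    have h2 := hπ (g * h) i
    rw [map_mul, Module.End.mul_apply, hπ h i, map_smul, hπ g (π h i), smul_smul, hm] at h2
    exact (cinj _ _ _ h2).symm
  have pM : ∀ m ∈ M, ∀ i, π m i = i := fun m hmM => t2_perm hd π h1 hm (span_const (hM m hmM))
  -- it suffices to see that the coefficients have order dividing `p`
  suffices hsuf : ∀ i, ∀ m ∈ M, c m i ^ p = 1 by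
    intro m hmM
    have h2 : R (m ^ p) = 1 := by
      apply b.ext
      intro i
      have hpow : ∀ n : ℕ, R (m ^ n) (b i) = c m i ^ n • b i := by
        intro n
        induction n with
        | zero => rw [pow_zero, map_one, pow_zero, one_smul]; rfl
        | succ n ih =>
          rw [pow_succ', map_mul, Module.End.mul_apply, ih, map_smul, hπ m i, pM m hmM, smul_smul,
            pow_succ]
      rw [hpow, hsuf i m hmM, one_smul]
      rfl
    have h3 : Matrix.toLin' (ρ (m ^ p)) = Matrix.toLin' 1 := by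
      rw [Matrix.toLin'_one]; exact h2
    exact Matrix.toLin'.injective h3
  -- the permutation action
  let Pm : P →* Equiv.Perm (Fin d) :=
    { toFun := fun g => ⟨π g, π g⁻¹, fun i => by rw [← hm, inv_mul_cancel, h1],
        fun i => by rw [← hm, mul_inv_cancel, h1]⟩
      map_one' := by
        ext i
        show ((π 1 i : Fin d) : ℕ) = _
        rw [h1]; rfl
      map_mul' := by
        intro g h
        ext i
        show ((π (g * h) i : Fin d) : ℕ) = ((π g (π h i) : Fin d) : ℕ)
        rw [hm] }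
  have hPm : ∀ g i, Pm g i = π g i := fun g i => rfl
  have cM : ∀ i, ∀ a ∈ M, ∀ a' ∈ M, c (a * a') i = c a i * c a' i := by
    intro i a _ a' ha'
    rw [cm, pM a' ha', mul_comm]
  by_cases hV : ∃ v ∈ V, Pm v ≠ 1
  · obtain ⟨g, hgV, hg1, hgc, hgp⟩ := exists_central hP Pm V hV
    intro i
    obtain ⟨q, hq⟩ : ∃ q, p = q + 1 := ⟨p - 1, (Nat.succ_pred_eq_of_pos hp.out.pos).symm⟩
    have hcomm : ∀ x j, π g (π x j) = π x (π g j) := by
      intro x j
      have h2 := congrArg (fun e : Equiv.Perm (Fin d) => e j) (hgc x)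
      exact h2
    have hiter : ∀ (n : ℕ) (j : Fin d), (π g)^[n] j = π (g ^ n) j := by
      intro n
      induction n with
      | zero => intro j; rw [pow_zero, h1]; rfl
      | succ n ih => intro j; rw [Function.iterate_succ_apply', ih, pow_succ', hm]
    have hgq : ∀ j, (π g)^[q + 1] j = j := by
      intro j
      rw [← hq, hiter]
      have h2 := congrArg (fun e : Equiv.Perm (Fin d) => e j) hgp
      rw [← map_pow] at h2
      exact h2
    have hgne : ∃ j, π g j ≠ j := by
      by_contra hcon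
      push Not at hcon
      apply hg1
      ext j
      rw [hPm, hcon]; rfl
    have hcS : ∀ s ∈ S, c s i = 1 := by
      intro s hs
      have h2 := hπ s i
      have h3 : R s = 1 := by
        show Matrix.toLin' (ρ s) = 1
        rw [hρS s hs, Matrix.toLin'_one]
        rfl
      rw [h3, pM s (hSM hs)] at h2
      apply cinj i
      rw [one_smul]
      exact h2.symm
    apply pow_eq_one_of_prod hp.out V M S hSM (hP.to_subgroup M) hPE (fun x => c x i) (cM i) (c1 i)
      hcS g hgV
    intro m hmM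
    have h2 := block_prod π c h1 hm c1 cm (π g) hcomm q hgq hgne (pM m hmM)
      (span_const (hM m hmM)) i
    rw [hq, ← h2]
    apply Finset.prod_congr rfl
    intro j _
    -- `c m (g^j i) = c (g^-j m g^j) i`
    rw [hiter]
    have hmj : (g ^ j)⁻¹ * m * g ^ j ∈ M := by
      have := (inferInstance : M.Normal).conj_mem m hmM (g ^ j)⁻¹
      simpa using this
    have h3 : m * g ^ j = g ^ j * ((g ^ j)⁻¹ * m * g ^ j) := by group
    have h4 := cm m (g ^ j) i
    rw [h3, cm, pM _ hmj] at h4
    have h5 := mul_right_cancel₀ (hc (g ^ j) i) (h4.trans (mul_comm _ _))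
    exact h5
  · push Not at hV
    -- `V` is diagonal, so `[V, V]` acts trivially
    have pV : ∀ v ∈ V, ∀ i, π v i = i := by
      intro v hv i
      have h2 := congrArg (fun e : Equiv.Perm (Fin d) => e i) (hV v hv)
      exact h2
    have hle : ∀ i, ⁅V, V⁆ ≤
        ({ carrier := {x | x ∈ V ∧ c x i = 1}
           one_mem' := ⟨V.one_mem, c1 i⟩
           mul_mem' := by
             rintro a a' ⟨ha, ha'⟩ ⟨hb, hb'⟩
             exact ⟨V.mul_mem ha hb, by rw [cm, pV a' hb, ha', hb', one_mul]⟩
           inv_mem' := by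
             rintro a ⟨ha, ha'⟩
             refine ⟨V.inv_mem ha, ?_⟩
             have h2 := cm a⁻¹ a i
             rw [inv_mul_cancel, c1, pV a ha, ha', one_mul] at h2
             exact h2.symm } : Subgroup P) := by
      intro i
      rw [Subgroup.commutator_le]
      intro x hx y hy
      refine ⟨(Subgroup.commutator_le_left V V) (Subgroup.commutator_mem_commutator hx hy), ?_⟩
      have h2 : ⁅x, y⁆ * (y * x) = x * y := by rw [commutatorElement_def]; group
      have h3 := cm ⁅x, y⁆ (y * x) i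
      rw [h2, pV _ (V.mul_mem hy hx), cm, cm, pV y hy, pV x hx] at h3
      have h4 : c x i * c y i ≠ 0 := mul_ne_zero (hc _ _) (hc _ _)
      have h5 : c x i * c y i * c ⁅x, y⁆ i = c x i * c y i * 1 := by rw [← h3]; ring
      exact mul_left_cancel₀ h4 h5
    intro i m hmM
    rw [(hle i (hMV hmM)).2, one_pow]

end Pool.Agent.DLR
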