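import Pool.Agent.DLR.R1
import Pool.Agent.DLF.K6

/-!
# [DLR-R2] the relative form of the key step and the chain
-/

set_option autoImplicit false

namespace Pool.Agent.DLR

open Pool.Agent.DLF Module
open scoped commutatorElement

/-- The relative form of the key step, with `p`-parts of degrees. -/
theorem step_pw {G : Type*} [Group G] [Finite G] {p : ℕ} [hp : Fact p.Prime]
    (P : Sylow p G) (V L S : Subgroup G) [hVn : V.Normal] [hLn : L.Normal] [hSn : S.Normal]
    (hVP : V ≤ (P : Subgroup G)) (hLV : L ≤ ⁅V, V⁆) (hSL : S ≤ L) (hPE : PES p L V S) (a : ℕ)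
    (hL : ∀ (d : ℕ) (ρ : G →* Matrix (Fin d) (Fin d) ℂ), Irr ρ → ¬ p ^ a ∣ d → ∀ x ∈ L, ρ x = 1)
    (d : ℕ) (ρ : G →* Matrix (Fin d) (Fin d) ℂ) (hρ : Irr ρ) (hd : ¬ p ^ (a + 1) ∣ d)
    (hS : ∀ x ∈ S, ρ x = 1) :
    ∀ z ∈ pw L p, ρ z = 1 := by
  classical
  have hLP : L ≤ (P : Subgroup G) := (hLV.trans (Subgroup.commutator_le_left V V)).trans hVP
  have hLL : (pw L p : Subgroup G).Normal := inferInstance
  -- the space of vectors fixed by `pw L p`
  let F : Submodule ℂ (Fin d → ℂ) :=
    { carrier := {u | ∀ z ∈ pw L p, Matrix.mulVec (ρ z) u = u}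
      add_mem' := by
        intro u v hu hv x hx
        rw [Matrix.mulVec_add, hu x hx, hv x hx]
      zero_mem' := by
        intro x hx
        rw [Matrix.mulVec_zero]
      smul_mem' := by
        intro c u hu x hx
        rw [Matrix.mulVec_smul, hu x hx] }
  have hFinv : ∀ g : G, ∀ v ∈ F, Matrix.mulVec (ρ g) v ∈ F := by
    intro g v hv x hx
    have hx' : g⁻¹ * x * g⁻¹⁻¹ ∈ pw L p := hLL.conj_mem x hx _
    have h1 := hv _ hx'
    have h2 : x * g = g * (g⁻¹ * x * g⁻¹⁻¹) := by group
    rw [Matrix.mulVec_mulVec, ← map_mul, h2, map_mul, ← Matrix.mulVec_mulVec, h1]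
  have hFtop : F = ⊤ := by
    rcases hρ F hFinv with hF | hF
    swap
    · exact hF
    exfalso
    -- a small irreducible constituent of the restriction to `P`
    let RP : ↥(P : Subgroup G) →* Module.End ℂ (Fin d → ℂ) :=
      (toEnd ρ).comp (P : Subgroup G).subtype
    have hRP : ∀ (g : ↥(P : Subgroup G)) v, RP g v = Matrix.mulVec (ρ (g : G)) v := by
      intro g v
      exact toEnd_apply ρ _ v
    have hex : ∃ Y : Submodule ℂ (Fin d → ℂ), (∀ g : ↥(P : Subgroup G), ∀ v ∈ Y, RP g v ∈ Y) ∧
        Y ≠ ⊥ ∧ (∀ Z : Submodule ℂ (Fin d → ℂ), Z ≤ Y →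
          (∀ g : ↥(P : Subgroup G), ∀ v ∈ Z, RP g v ∈ Z) → Z = ⊥ ∨ Z = Y) ∧
        ¬ p ^ (a + 1) ∣ finrank ℂ Y := by
      by_contra hcon
      push Not at hcon
      apply hd
      have h1 := dvd_finrank RP (p ^ (a + 1)) (fun Y h1 h2 h3 => hcon Y h1 h2 h3)
      rwa [Module.finrank_fin_fun] at h1
    obtain ⟨Y, hYinv, hY0, hYirr, hYnd⟩ := hex
    obtain ⟨n, ψ, hn, hψ, T, hTinj, hTr, hTe⟩ := exists_matrix_rep' RP Y hYinv hYirr
    rw [← hn] at hYnd
    have hn0 : 0 < n := by
      rw [hn]
      exact Module.finrank_pos_iff.2 ((Submodule.nontrivial_iff_ne_bot).2 hY0)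
    have hnt : Nontrivial (Fin n → ℂ) := by
      have : Nonempty (Fin n) := ⟨⟨0, hn0⟩⟩
      infer_instance
    have hPp : IsPGroup p ↥(P : Subgroup G) := P.isPGroup'
    obtain ⟨e, he⟩ := finrank_eq_pow hPp (toEnd ψ) (by
      intro W hW
      apply hψ W
      intro g v hv
      have := hW g v hv
      rwa [toEnd_apply] at this)
    rw [Module.finrank_fin_fun] at he
    have hea : e ≤ a := by
      by_contra hlt
      apply hYnd
      rw [he]
      exact pow_dvd_pow p (by omega)
    have hnpa : n ≤ p ^ a := by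
      rw [he]
      exact Nat.pow_le_pow_right hp.out.pos hea
    have hsmall : ∀ (x : G) (hx : x ∈ L) (m : ℕ)
        (τ : ↥(P : Subgroup G) →* Matrix (Fin m) (Fin m) ℂ), Irr τ → m ≤ n - 1 →
        τ ⟨x, hLP hx⟩ = 1 := by
      intro x hx m τ hτ hm
      exact small_degree_kills P L hLP a hL m τ hτ (by omega) x hx
    -- transfer to subgroups of `P`
    let V' : Subgroup ↥(P : Subgroup G) := V.subgroupOf (P : Subgroup G)
    let L' : Subgroup ↥(P : Subgroup G) := L.subgroupOf (P : Subgroup G)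
    have hV'm : V'.map (P : Subgroup G).subtype = V := by
      rw [Subgroup.subgroupOf_map_subtype]; exact inf_eq_left.2 hVP
    have hL'm : L'.map (P : Subgroup G).subtype = L := by
      rw [Subgroup.subgroupOf_map_subtype]; exact inf_eq_left.2 hLP
    let S' : Subgroup ↥(P : Subgroup G) := S.subgroupOf (P : Subgroup G)
    have hSP : S ≤ (P : Subgroup G) := hSL.trans hLP
    have hS'm : S'.map (P : Subgroup G).subtype = S := by
      rw [Subgroup.subgroupOf_map_subtype]; exact inf_eq_left.2 hSP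
    have hψS : ∀ s ∈ S', ψ s = 1 := by
      intro s hs
      apply Matrix.toLin'.injective
      apply LinearMap.ext
      intro v
      rw [Matrix.toLin'_apply, Matrix.toLin'_one]
      apply hTinj
      have h1 : ρ (s : G) = 1 := hS _ hs
      rw [hTe, hRP, h1, Matrix.one_mulVec]
      rfl
    have hinj := (P : Subgroup G).subtype_injective
    have hL'V' : L' ≤ ⁅V', V'⁆ := by
      rw [← Subgroup.map_le_map_iff_of_injective hinj, Subgroup.map_commutator, hL'm, hV'm]
      exact hLV
    have hPE' : PES p L' V' S' := by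
      rcases hPE with ⟨h2, h3⟩ | h3
      · left
        refine ⟨h2, ?_⟩
        rw [← Subgroup.map_le_map_iff_of_injective hinj, Subgroup.map_commutator, Subgroup.map_sup,
          map_pw, hL'm, hV'm, hS'm]
        exact h3
      · right
        rw [← Subgroup.map_le_map_iff_of_injective hinj, Subgroup.map_commutator, Subgroup.map_sup,
          map_pw, map_pw, hL'm, hV'm, hS'm]
        exact h3
    have hS'L' : S' ≤ L' := by
      rw [← Subgroup.map_le_map_iff_of_injective hinj, hS'm, hL'm]
      exact hSL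
    have hkill0 : ∀ x (hx : x ∈ L), ψ ((⟨x, hLP hx⟩ : ↥(P : Subgroup G)) ^ p) = 1 := by
      intro x hx
      rcases Nat.lt_or_ge n 2 with h2 | h2
      · have hn1 : n = 1 := by omega
        subst hn1
        -- `ψ` is linear
        have hcomm : ∀ y z : ↥(P : Subgroup G), ψ y * ψ z = ψ z * ψ y := by
          intro y z
          ext i j
          have hi : i = 0 := Subsingleton.elim _ _
          have hj : j = 0 := Subsingleton.elim _ _
          subst hi; subst hj
          simp [Matrix.mul_apply, mul_comm]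
        have hle : ⁅V', V'⁆ ≤ kerM ψ := by
          rw [Subgroup.commutator_le]
          intro y _ z _
          exact map_commutator_eq_one ψ (hcomm y z)
        have h3 : (⟨x, hLP hx⟩ : ↥(P : Subgroup G)) ∈ kerM ψ := hle (hL'V' hx)
        rw [map_pow, (mem_kerM.1 h3), one_pow]
      · have hk := key_power hPp h2 ψ hψ V' L' S' hL'V' hS'L' hPE' hψS (by
          intro y hy m τ hτ hm
          exact hsmall y hy m τ hτ hm)
        exact hk ⟨x, hLP hx⟩ hx
    have hpwP : pw L p ≤ (P : Subgroup G) := (pw_le L p).trans hLP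
    have hkill : ∀ z (hz : z ∈ pw L p), ψ ⟨z, hpwP hz⟩ = 1 := by
      have hle : pw L p ≤ (kerM ψ).map (P : Subgroup G).subtype := by
        rw [pw_le_iff]
        intro x hx
        exact ⟨(⟨x, hLP hx⟩ : ↥(P : Subgroup G)) ^ p, hkill0 x hx, rfl⟩
      intro z hz
      obtain ⟨w, hw, hwz⟩ := hle hz
      have : (⟨z, hpwP hz⟩ : ↥(P : Subgroup G)) = w := by
        apply Subtype.ext
        exact hwz.symm
      rw [this]
      exact hw
    -- so `Y ≤ F`
    apply hY0
    rw [eq_bot_iff, ← hF]
    intro y hy z hz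
    have h2 : y ∈ LinearMap.range T := by rw [hTr]; exact hy
    obtain ⟨v, rfl⟩ := h2
    have h3 := hTe ⟨z, hpwP hz⟩ v
    rw [hRP, hkill z hz, Matrix.one_mulVec] at h3
    exact h3.symm
  intro z hz
  apply Matrix.toLin'.injective
  apply LinearMap.ext
  intro u
  have hu : u ∈ F := by rw [hFtop]; trivial
  rw [Matrix.toLin'_apply, hu z hz, Matrix.toLin'_one]
  rfl

/-- The common kernel of the irreducible representations of `G` whose degree is not divisible by
`p ^ a`. -/
def lowK (G : Type*) [Group G] (p a : ℕ) : Subgroup G where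
  carrier := {x | ∀ (d : ℕ) (ρ : G →* Matrix (Fin d) (Fin d) ℂ), Irr ρ → ¬ p ^ a ∣ d → ρ x = 1}
  one_mem' := by
    intro d ρ _ _
    exact map_one ρ
  mul_mem' := by
    intro a b ha hb d ρ hρ hd
    rw [map_mul, ha d ρ hρ hd, hb d ρ hρ hd, one_mul]
  inv_mem' := by
    intro a ha d ρ hρ hd
    have h1 := ha d ρ hρ hd
    have h2 : ρ (a⁻¹) * ρ a = 1 := by rw [← map_mul]; simp
    rw [h1, mul_one] at h2
    exact h2

instance lowK_normal (G : Type*) [Group G] (p a : ℕ) : (lowK G p a).Normal where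
  conj_mem := by
    intro x hx g d ρ hρ hd
    rw [map_mul, map_mul, hx d ρ hρ hd, mul_one, ← map_mul, mul_inv_cancel, map_one]

theorem mem_lowK {G : Type*} [Group G] {p a : ℕ} {x : G} : x ∈ lowK G p a ↔
    ∀ (d : ℕ) (ρ : G →* Matrix (Fin d) (Fin d) ℂ), Irr ρ → ¬ p ^ a ∣ d → ρ x = 1 := Iff.rfl

theorem lowK_zero (G : Type*) [Group G] (p : ℕ) : lowK G p 0 = ⊤ := by
  rw [eq_top_iff]
  intro x _ d ρ _ hd
  exact absurd (by simp) hd

theorem lowK_card (G : Type*) [Group G] [Finite G] {p : ℕ} (hp : p.Prime) :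
    lowK G p (Nat.card G) = ⊥ := by
  rw [eq_bot_iff]
  intro x hx
  have hker : (⟨x, Subgroup.mem_top x⟩ : ↥(⊤ : Subgroup G)) ∈
      lowKer (⊤ : Subgroup G) (Nat.card G) := by
    intro d ρ hρ hd
    rcases Nat.eq_zero_or_pos d with rfl | h
    · ext i; exact i.elim0
    · apply hx d ρ hρ
      intro hdvd
      have h3 := Nat.le_of_dvd h hdvd
      have h4 : Nat.card G < p ^ Nat.card G := Nat.lt_pow_self hp.one_lt
      omega
  rw [kerUpTo_card _ le_rfl, Subgroup.mem_bot] at hker
  rw [Subgroup.mem_bot]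
  exact congrArg Subtype.val hker

theorem kerM_normal {G : Type*} [Group G] {d : ℕ} (ρ : G →* Matrix (Fin d) (Fin d) ℂ) :
    (kerM ρ).Normal where
  conj_mem := by
    intro x hx g
    have h1 : ρ x = 1 := hx
    show ρ (g * x * g⁻¹) = 1
    rw [map_mul, map_mul, h1, mul_one, ← map_mul, mul_inv_cancel, map_one]

/-- The chain `[V, V] ≥ [V, V]^p ≥ …`. -/
def chain {G : Type*} [Group G] (V : Subgroup G) (p : ℕ) : ℕ → Subgroup G
  | 0 => ⁅V, V⁆
  | k + 1 => pw (chain V p k) p

theorem chain_normal {G : Type*} [Group G] (V : Subgroup G) [V.Normal] (p k : ℕ) :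
    (chain V p k).Normal := by
  induction k with
  | zero => exact Subgroup.commutator_normal _ _
  | succ k ih =>
    have := ih
    exact pw_normal _ _

theorem chain_antitone {G : Type*} [Group G] (V : Subgroup G) (p : ℕ) {j k : ℕ} (h : j ≤ k) :
    chain V p k ≤ chain V p j := by
  induction h with
  | refl => exact le_rfl
  | step _ ih => exact (pw_le _ _).trans ih

theorem chain_kills {G : Type*} [Group G] [Finite G] {p : ℕ} [hp : Fact p.Prime]
    (V : Subgroup G) [hVn : V.Normal] (hV : IsPGroup p ↥V)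
    (hPE : ∀ k, PE p (chain V p k) V) (a : ℕ) :
    ∀ x ∈ chain V p {e | e ∈ partExp G ⁅V, V⁆ p ∧ e < a}.ncard,
      ∀ (d : ℕ) (ρ : G →* Matrix (Fin d) (Fin d) ℂ), Irr ρ → ¬ p ^ a ∣ d → ρ x = 1 := by
  classical
  obtain ⟨P, hVP⟩ := hV.exists_le_sylow
  induction a with
  | zero =>
    intro x _ d ρ _ hd
    exact absurd (by simp) hd
  | succ a ih =>
    have hfin : {e | e ∈ partExp G ⁅V, V⁆ p ∧ e < a}.Finite :=
      (Set.finite_lt_nat a).subset (fun e he => he.2)
    by_cases hmem : a ∈ partExp G ⁅V, V⁆ p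
    · have h1 : {e | e ∈ partExp G ⁅V, V⁆ p ∧ e < a + 1}
          = insert a {e | e ∈ partExp G ⁅V, V⁆ p ∧ e < a} := by
        ext e
        simp only [Set.mem_ofPred_eq, Set.mem_insert_iff]
        constructor
        · rintro ⟨h1, h2⟩
          by_cases h : e = a
          · exact Or.inl h
          · exact Or.inr ⟨h1, by omega⟩
        · rintro (rfl | ⟨h1, h2⟩)
          · exact ⟨hmem, by omega⟩
          · exact ⟨h1, by omega⟩
      rw [h1, Set.ncard_insert_of_notMem (by
        simp only [Set.mem_ofPred_eq]; omega) hfin]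
      set n := {e | e ∈ partExp G ⁅V, V⁆ p ∧ e < a}.ncard with hn
      have hLn : (chain V p n).Normal := chain_normal V p n
      intro x hx d ρ hρ hd
      exact step_pw P V (chain V p n) ⊥ hVP (chain_antitone V p (Nat.zero_le n)) bot_le
        (hPE n).toPES a
        (fun d ρ hρ hd x hx => ih x hx d ρ hρ hd) d ρ hρ hd
        (fun x hx => by rw [Subgroup.mem_bot.1 hx, map_one]) x hx
    · have h1 : {e | e ∈ partExp G ⁅V, V⁆ p ∧ e < a + 1}
          = {e | e ∈ partExp G ⁅V, V⁆ p ∧ e < a} := by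
        ext e
        simp only [Set.mem_ofPred_eq]
        constructor
        · rintro ⟨h1, h2⟩
          refine ⟨h1, ?_⟩
          by_contra h
          have : e = a := by omega
          rw [this] at h1
          exact hmem h1
        · rintro ⟨h1, h2⟩
          exact ⟨h1, by omega⟩
      rw [h1]
      intro x hx d ρ hρ hd
      by_cases hda : p ^ a ∣ d
      · by_contra hne
        apply hmem
        refine ⟨d, ⟨?_, ρ, hρ, x, chain_antitone V p (Nat.zero_le _) hx, hne⟩, hda, hd⟩
        rcases Nat.eq_zero_or_pos d with rfl | h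
        · exact absurd (dvd_zero _) hd
        · exact h
      · exact ih x hx d ρ hρ hda

theorem chain_eq_bot {G : Type*} [Group G] [Finite G] {p : ℕ} [hp : Fact p.Prime]
    (V : Subgroup G) [hVn : V.Normal] (hV : IsPGroup p ↥V)
    (hPE : ∀ k, PE p (chain V p k) V) :
    chain V p (cdOver G ⁅V, V⁆).ncard = ⊥ := by
  classical
  have hle := chain_antitone V p (ncard_partExp_le ⁅V, V⁆ (p := p) (Nat.card G) (G := G))
  have h1 := chain_kills V hV hPE (Nat.card G)
  rw [eq_bot_iff, ← lowK_card G hp.out]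
  intro x hx
  exact h1 x (hle hx)

/-- A level is not passed without a degree. -/
theorem inf_lowK_succ {G : Type*} [Group G] (K : Subgroup G) (p a : ℕ)
    (h : a ∉ partExp G K p) : K ⊓ lowK G p a ≤ lowK G p (a + 1) := by
  rintro x ⟨hxK, hx⟩ d ρ hρ hd
  by_cases hda : p ^ a ∣ d
  · by_contra hne
    apply h
    refine ⟨d, ⟨?_, ρ, hρ, x, hxK, hne⟩, hda, hd⟩
    rcases Nat.eq_zero_or_pos d with rfl | h
    · exact absurd (dvd_zero _) hd
    · exact h
  · exact hx d ρ hρ hda

/-- The class bound from a central series through the levels. -/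
theorem lcs_le_lowK {G : Type*} [Group G] (V : Subgroup G) (p : ℕ)
    (h : ∀ a, ⁅⁅V, V⁆ ⊓ lowK G p a, V⁆ ≤ lowK G p (a + 1)) (a : ℕ) :
    V.lowerCentralSeries ({e | e ∈ partExp G ⁅V, V⁆ p ∧ e < a}.ncard + 1) ≤ lowK G p a := by
  classical
  have hV1 : ∀ k, V.lowerCentralSeries (k + 1) ≤ ⁅V, V⁆ := by
    intro k
    have := V.lowerCentralSeries_antitone (show 1 ≤ k + 1 by omega)
    exact this
  induction a with
  | zero =>
    rw [lowK_zero]
    exact le_top
  | succ a ih =>
    have hfin : {e | e ∈ partExp G ⁅V, V⁆ p ∧ e < a}.Finite :=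
      (Set.finite_lt_nat a).subset (fun e he => he.2)
    by_cases hmem : a ∈ partExp G ⁅V, V⁆ p
    · have h1 : {e | e ∈ partExp G ⁅V, V⁆ p ∧ e < a + 1}
          = insert a {e | e ∈ partExp G ⁅V, V⁆ p ∧ e < a} := by
        ext e
        simp only [Set.mem_ofPred_eq, Set.mem_insert_iff]
        constructor
        · rintro ⟨h1, h2⟩
          by_cases h : e = a
          · exact Or.inl h
          · exact Or.inr ⟨h1, by omega⟩
        · rintro (rfl | ⟨h1, h2⟩)
          · exact ⟨hmem, by omega⟩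
          · exact ⟨h1, by omega⟩
      rw [h1, Set.ncard_insert_of_notMem (by
        simp only [Set.mem_ofPred_eq]; omega) hfin]
      rw [Subgroup.lowerCentralSeries_succ]
      exact (Subgroup.commutator_mono (le_inf (hV1 _) ih) le_rfl).trans (h a)
    · have h1 : {e | e ∈ partExp G ⁅V, V⁆ p ∧ e < a + 1}
          = {e | e ∈ partExp G ⁅V, V⁆ p ∧ e < a} := by
        ext e
        simp only [Set.mem_ofPred_eq]
        constructor
        · rintro ⟨h1, h2⟩
          refine ⟨h1, ?_⟩
          by_contra h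
          have : e = a := by omega
          rw [this] at h1
          exact hmem h1
        · rintro ⟨h1, h2⟩
          exact ⟨h1, by omega⟩
      rw [h1]
      exact (le_inf (hV1 _) ih).trans (inf_lowK_succ _ p a hmem)

end Pool.Agent.DLR
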